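import Pool.Agent.LawOsc.Conc

/-! Numerical form of the anti-concentration bounds. -/

namespace LawOsc

open Finset

/-- The bound in dimension six. -/
noncomputable def k6 (n : ℕ) : ℝ := 6 * (136 / 64) ^ 3 / ((n + 1) * (n + 2) * (n + 3))

/-- The bound in dimension one. -/
noncomputable def k1 (n : ℕ) : ℝ := (69 / 2) / Real.sqrt (n + 1)

lemma k6_nonneg (n : ℕ) : 0 ≤ k6 n := by unfold k6; positivity
lemma k1_nonneg (n : ℕ) : 0 ≤ k1 n := by unfold k1; positivity

lemma choose_shift (n k : ℕ) :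
    (n.choose k : ℝ) / ((k : ℝ) + 1) = ((n + 1).choose (k + 1) : ℝ) / ((n : ℝ) + 1) := by
  have h := Nat.add_one_mul_choose_eq n k
  have h2 : ((n : ℝ) + 1) * n.choose k = (n + 1).choose (k + 1) * ((k : ℝ) + 1) := by
    exact_mod_cast h
  rw [div_eq_div_iff (by positivity) (by positivity)]
  linarith

lemma choose_shift3 (n k : ℕ) :
    (n.choose k : ℝ) / (((k : ℝ) + 1) * (k + 2) * (k + 3)) =
      ((n + 3).choose (k + 3) : ℝ) / (((n : ℝ) + 1) * (n + 2) * (n + 3)) := by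
  have h1 := choose_shift n k
  have h2 := choose_shift (n + 1) (k + 1)
  have h3 := choose_shift (n + 2) (k + 2)
  push_cast at h1 h2 h3
  rw [div_eq_div_iff (by positivity) (by positivity)] at h1 h2 h3 ⊢
  have e1 : (n.choose k : ℝ) * (n + 1) = (n + 1).choose (k + 1) * (k + 1) := h1
  have e2 : ((n + 1).choose (k + 1) : ℝ) * (n + 2) = (n + 2).choose (k + 2) * (k + 2) := by
    rw [show (n + 2 : ℝ) = n + 1 + 1 by ring, show (k + 2 : ℝ) = k + 1 + 1 by ring]; exact h2
  have e3 : ((n + 2).choose (k + 2) : ℝ) * (n + 3) = (n + 3).choose (k + 3) * (k + 3) := by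
    rw [show (n + 3 : ℝ) = n + 2 + 1 by ring, show (k + 3 : ℝ) = k + 2 + 1 by ring]; exact h3
  calc (n.choose k : ℝ) * ((n + 1) * (n + 2) * (n + 3))
      = ((n.choose k : ℝ) * (n + 1)) * (n + 2) * (n + 3) := by ring
    _ = (((n + 1).choose (k + 1) : ℝ) * (n + 2)) * (k + 1) * (n + 3) := by rw [e1]; ring
    _ = (((n + 2).choose (k + 2) : ℝ) * (n + 3)) * (k + 2) * (k + 1) := by rw [e2]; ring
    _ = ((n + 3).choose (k + 3) : ℝ) * ((k + 1) * (k + 2) * (k + 3)) := by rw [e3]; ring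

lemma binom3_le (n : ℕ) (a b : ℝ) (ha : 0 ≤ a) (hb : 0 ≤ b) :
    ∑ k ∈ range (n + 1), ((n + 3).choose (k + 3) : ℝ) * a ^ (n - k) * b ^ (k + 3) ≤
      (a + b) ^ (n + 3) := by
  rw [add_comm a b, add_pow, Finset.sum_range_succ' _ (n + 3), Finset.sum_range_succ' _ (n + 2),
    Finset.sum_range_succ' _ (n + 1)]
  have h : ∀ k ∈ range (n + 1), ((n + 3).choose (k + 3) : ℝ) * a ^ (n - k) * b ^ (k + 3) =
      b ^ (k + 1 + 1 + 1) * a ^ (n + 3 - (k + 1 + 1 + 1)) *
        ((n + 3).choose (k + 1 + 1 + 1) : ℝ) := by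
    intro k _
    rw [show n + 3 - (k + 1 + 1 + 1) = n - k by omega]
    ring
  rw [Finset.sum_congr rfl h]
  have : 0 ≤ b ^ (0 + 1 + 1) * a ^ (n + 3 - (0 + 1 + 1)) * ((n + 3).choose (0 + 1 + 1) : ℝ) := by
    positivity
  have : 0 ≤ b ^ (0 + 1) * a ^ (n + 3 - (0 + 1)) * ((n + 3).choose (0 + 1) : ℝ) := by
    positivity
  have : 0 ≤ b ^ 0 * a ^ (n + 3 - 0) * ((n + 3).choose 0 : ℝ) := by
    positivity
  linarith

lemma binom1_le (n : ℕ) (a b : ℝ) (ha : 0 ≤ a) (hb : 0 ≤ b) :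
    ∑ k ∈ range (n + 1), ((n + 1).choose (k + 1) : ℝ) * a ^ (n - k) * b ^ (k + 1) ≤
      (a + b) ^ (n + 1) := by
  rw [add_comm a b, add_pow, Finset.sum_range_succ' _ (n + 1)]
  have h : ∀ k ∈ range (n + 1), ((n + 1).choose (k + 1) : ℝ) * a ^ (n - k) * b ^ (k + 1) =
      b ^ (k + 1) * a ^ (n + 1 - (k + 1)) * ((n + 1).choose (k + 1) : ℝ) := by
    intro k _
    rw [show n + 1 - (k + 1) = n - k by omega]
    ring
  rw [Finset.sum_congr rfl h]
  have : 0 ≤ b ^ 0 * a ^ (n + 1 - 0) * ((n + 1).choose 0 : ℝ) := by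
    positivity
  linarith

section

variable {I : Type*} [Fintype I] [DecidableEq I]

lemma card_rest {m : ℕ} (ι : (Fin m → Bool) ↪ I) :
    Fintype.card (Rest ι) + 2 ^ m = Fintype.card I := by
  classical
  have h1 : Fintype.card {s : I // s ∈ Set.range ι} = 2 ^ m := by
    have e : (Fin m → Bool) ≃ {s : I // s ∈ Set.range ι} := Equiv.ofInjective ι ι.injective
    rw [← Fintype.card_congr e]; simp
  have h2 := Fintype.card_subtype_compl (fun s : I => s ∈ Set.range ι)
  have h3 : Fintype.card {s : I // s ∈ Set.range ι} ≤ Fintype.card I :=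
    Fintype.card_subtype_le _
  have h4 : Fintype.card (Rest ι) = Fintype.card {s : I // ¬ s ∈ Set.range ι} :=
    Fintype.card_congr (Equiv.refl _)
  omega

lemma conc6 (hI : Fintype.card I = 136) (ι : (Fin 6 → Bool) ↪ I) (d : I → Fin 6 → ℤ)
    (hd : ∀ σ i, d (ι σ) i = sg (σ i)) (hd0 : ∀ s, s ∉ Set.range ι → d s = 0)
    (n : ℕ) (g : (Fin n → Option (Rest ι)) → Fin 6 → ℤ) :
    ((univ.filter fun ω : Fin n → I => ∑ j, d (ω j) = g (fun j => hist ι (ω j))).card : ℝ) ≤
      136 ^ n * k6 n := by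
  classical
  have hR : (Fintype.card (Rest ι) : ℝ) = 72 := by
    have := card_rest ι
    rw [hI] at this
    have h : Fintype.card (Rest ι) = 72 := by omega
    rw [h]; norm_num
  have h1 : ((univ.filter fun ω : Fin n → I =>
      ∑ j, d (ω j) = g (fun j => hist ι (ω j))).card : ℝ) ≤
      ∑ η : Fin n → Option (Rest ι), (((kn η).choose (kn η / 2) : ℕ) : ℝ) ^ 6 := by
    exact_mod_cast hist_count ι d hd hd0 n g
  refine h1.trans ?_
  have h2 : ∀ k : ℕ, ((k.choose (k / 2) : ℕ) : ℝ) ^ 6 ≤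
      64 ^ k * (6 / (((k : ℝ) + 1) * (k + 2) * (k + 3))) := by
    intro k
    have hm : ((k : ℝ) + 1) * ((k.choose (k / 2) : ℕ) : ℝ) ^ 2 ≤ 4 ^ k := by
      exact_mod_cast middle_sq k
    have hc : ((k.choose (k / 2) : ℕ) : ℝ) ^ 2 ≤ 4 ^ k / ((k : ℝ) + 1) := by
      rw [le_div_iff₀ (by positivity)]; linarith
    calc ((k.choose (k / 2) : ℕ) : ℝ) ^ 6 = (((k.choose (k / 2) : ℕ) : ℝ) ^ 2) ^ 3 := by ring
      _ ≤ (4 ^ k / ((k : ℝ) + 1)) ^ 3 := by
          apply pow_le_pow_left₀ (by positivity) hc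
      _ = 64 ^ k * (1 / ((k : ℝ) + 1) ^ 3) := by
          rw [div_pow, ← pow_mul, mul_comm k 3, pow_mul]; norm_num; ring
      _ ≤ 64 ^ k * (6 / (((k : ℝ) + 1) * (k + 2) * (k + 3))) := by
          apply mul_le_mul_of_nonneg_left _ (by positivity)
          rw [div_le_div_iff₀ (by positivity) (by positivity)]
          have hk : (0 : ℝ) ≤ k := Nat.cast_nonneg k
          nlinarith [mul_nonneg hk hk, mul_nonneg (mul_nonneg hk hk) hk]
  calc ∑ η : Fin n → Option (Rest ι), (((kn η).choose (kn η / 2) : ℕ) : ℝ) ^ 6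
      ≤ ∑ η : Fin n → Option (Rest ι),
        (fun k : ℕ => (64 : ℝ) ^ k * (6 / (((k : ℝ) + 1) * (k + 2) * (k + 3)))) (kn η) :=
        Finset.sum_le_sum fun η _ => h2 (kn η)
    _ = ∑ k ∈ range (n + 1), (n.choose k : ℝ) * (72 : ℝ) ^ (n - k) *
        (64 ^ k * (6 / (((k : ℝ) + 1) * (k + 2) * (k + 3)))) := by
        have := sum_hist (R := Rest ι) n
          (fun k : ℕ => (64 : ℝ) ^ k * (6 / (((k : ℝ) + 1) * (k + 2) * (k + 3))))
        rw [hR] at this
        convert this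
    _ = (6 / (64 ^ 3 * (((n : ℝ) + 1) * (n + 2) * (n + 3)))) *
        ∑ k ∈ range (n + 1), ((n + 3).choose (k + 3) : ℝ) * 72 ^ (n - k) * 64 ^ (k + 3) := by
        rw [Finset.mul_sum]
        apply Finset.sum_congr rfl
        intro k _
        have := choose_shift3 n k
        calc (n.choose k : ℝ) * (72 : ℝ) ^ (n - k) *
            (64 ^ k * (6 / (((k : ℝ) + 1) * (k + 2) * (k + 3))))
            = (n.choose k : ℝ) / (((k : ℝ) + 1) * (k + 2) * (k + 3)) *
              (6 * 72 ^ (n - k) * 64 ^ k) := by ring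
          _ = ((n + 3).choose (k + 3) : ℝ) / (((n : ℝ) + 1) * (n + 2) * (n + 3)) *
              (6 * 72 ^ (n - k) * 64 ^ k) := by rw [this]
          _ = _ := by
              rw [pow_add 64 k 3]
              field_simp
    _ ≤ (6 / (64 ^ 3 * (((n : ℝ) + 1) * (n + 2) * (n + 3)))) * (72 + 64) ^ (n + 3) := by
        apply mul_le_mul_of_nonneg_left _ (by positivity)
        exact binom3_le n 72 64 (by norm_num) (by norm_num)
    _ = 136 ^ n * k6 n := by
        unfold k6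
        rw [show (72 : ℝ) + 64 = 136 by norm_num, pow_add 136 n 3, div_pow]
        field_simp

lemma conc1 (hI : Fintype.card I = 136) (ι : (Fin 1 → Bool) ↪ I) (d : I → Fin 1 → ℤ)
    (hd : ∀ σ i, d (ι σ) i = sg (σ i)) (hd0 : ∀ s, s ∉ Set.range ι → d s = 0)
    (n : ℕ) (g : (Fin n → Option (Rest ι)) → Fin 1 → ℤ) :
    ((univ.filter fun ω : Fin n → I => ∑ j, d (ω j) = g (fun j => hist ι (ω j))).card : ℝ) ≤
      136 ^ n * k1 n := by
  classical
  have hR : (Fintype.card (Rest ι) : ℝ) = 134 := by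
    have := card_rest ι
    rw [hI] at this
    have h : Fintype.card (Rest ι) = 134 := by omega
    rw [h]; norm_num
  set l : ℝ := 1 / Real.sqrt (n + 1) with hl
  have hs : 0 < Real.sqrt (n + 1) := Real.sqrt_pos.mpr (by positivity)
  have hs2 : Real.sqrt (n + 1) ^ 2 = n + 1 := Real.sq_sqrt (by positivity)
  have hl0 : 0 < l := by positivity
  have h1 : ((univ.filter fun ω : Fin n → I =>
      ∑ j, d (ω j) = g (fun j => hist ι (ω j))).card : ℝ) ≤
      ∑ η : Fin n → Option (Rest ι), (((kn η).choose (kn η / 2) : ℕ) : ℝ) := by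
    have := hist_count ι d hd hd0 n g
    simp only [pow_one] at this
    exact_mod_cast this
  refine h1.trans ?_
  have h2 : ∀ k : ℕ, ((k.choose (k / 2) : ℕ) : ℝ) ≤
      2 ^ k * ((l + (1 / l) * (1 / ((k : ℝ) + 1))) / 2) := by
    intro k
    have hm : ((k : ℝ) + 1) * ((k.choose (k / 2) : ℕ) : ℝ) ^ 2 ≤ 4 ^ k := by
      exact_mod_cast middle_sq k
    set u : ℝ := ((k.choose (k / 2) : ℕ) : ℝ) / 2 ^ k with hu
    have hu1 : ((k.choose (k / 2) : ℕ) : ℝ) = 2 ^ k * u := by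
      rw [hu]; field_simp
    have hu2 : u ^ 2 ≤ 1 / ((k : ℝ) + 1) := by
      rw [le_div_iff₀ (by positivity)]
      rw [hu1] at hm
      have h4 : (4 : ℝ) ^ k = (2 ^ k) ^ 2 := by
        rw [← pow_mul, mul_comm k 2, pow_mul]; norm_num
      rw [h4] at hm
      have hp : (0 : ℝ) < (2 ^ k) ^ 2 := by positivity
      nlinarith
    rw [hu1]
    apply mul_le_mul_of_nonneg_left _ (by positivity)
    have h5 : (1 / l) * u ^ 2 ≤ (1 / l) * (1 / ((k : ℝ) + 1)) :=
      mul_le_mul_of_nonneg_left hu2 (by positivity)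
    have h6 : 2 * u ≤ l + (1 / l) * u ^ 2 := by
      have : 0 ≤ (1 / l) * (l - u) ^ 2 := by positivity
      have h7 : (1 / l) * (l - u) ^ 2 = l - 2 * u + (1 / l) * u ^ 2 := by
        field_simp
        ring
      linarith
    linarith
  calc ∑ η : Fin n → Option (Rest ι), (((kn η).choose (kn η / 2) : ℕ) : ℝ)
      ≤ ∑ η : Fin n → Option (Rest ι),
        (fun k : ℕ => (2 : ℝ) ^ k * ((l + (1 / l) * (1 / ((k : ℝ) + 1))) / 2)) (kn η) :=
        Finset.sum_le_sum fun η _ => h2 (kn η)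
    _ = ∑ k ∈ range (n + 1), (n.choose k : ℝ) * (134 : ℝ) ^ (n - k) *
        (2 ^ k * ((l + (1 / l) * (1 / ((k : ℝ) + 1))) / 2)) := by
        have := sum_hist (R := Rest ι) n
          (fun k : ℕ => (2 : ℝ) ^ k * ((l + (1 / l) * (1 / ((k : ℝ) + 1))) / 2))
        rw [hR] at this
        convert this
    _ = (l / 2) * ∑ k ∈ range (n + 1), (2 : ℝ) ^ k * 134 ^ (n - k) * (n.choose k : ℝ) +
        (1 / (4 * l * ((n : ℝ) + 1))) *
        ∑ k ∈ range (n + 1), ((n + 1).choose (k + 1) : ℝ) * 134 ^ (n - k) * 2 ^ (k + 1) := by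
        rw [Finset.mul_sum, Finset.mul_sum, ← Finset.sum_add_distrib]
        apply Finset.sum_congr rfl
        intro k _
        have := choose_shift n k
        calc (n.choose k : ℝ) * (134 : ℝ) ^ (n - k) *
            (2 ^ k * ((l + (1 / l) * (1 / ((k : ℝ) + 1))) / 2))
            = l / 2 * (2 ^ k * 134 ^ (n - k) * (n.choose k : ℝ)) +
              (n.choose k : ℝ) / ((k : ℝ) + 1) * (134 ^ (n - k) * 2 ^ k * (1 / l) / 2) := by
              ring
          _ = l / 2 * (2 ^ k * 134 ^ (n - k) * (n.choose k : ℝ)) +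
              ((n + 1).choose (k + 1) : ℝ) / ((n : ℝ) + 1) *
              (134 ^ (n - k) * 2 ^ k * (1 / l) / 2) := by rw [this]
          _ = _ := by
              rw [pow_succ 2 k]
              field_simp
              ring
    _ ≤ (l / 2) * (2 + 134) ^ n + (1 / (4 * l * ((n : ℝ) + 1))) * (134 + 2) ^ (n + 1) := by
        rw [← add_pow]
        gcongr
        exact binom1_le n 134 2 (by norm_num) (by norm_num)
    _ = 136 ^ n * k1 n := by
        unfold k1
        rw [show (2 : ℝ) + 134 = 136 by norm_num, show (134 : ℝ) + 2 = 136 by norm_num,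
          pow_succ, hl]
        have hn : (n : ℝ) + 1 = Real.sqrt (n + 1) ^ 2 := hs2.symm
        field_simp
        rw [hs2]
        ring

end

lemma k6_tendsto : Filter.Tendsto (fun n : ℕ => (n : ℝ) ^ 2 * k6 n) Filter.atTop (nhds 0) := by
  have h : ∀ n : ℕ, (n : ℝ) ^ 2 * k6 n ≤ 58 / ((n : ℝ) + 1) := by
    intro n
    unfold k6
    rw [mul_div_assoc', div_le_div_iff₀ (by positivity) (by positivity)]
    have hn : (0 : ℝ) ≤ n := Nat.cast_nonneg n
    nlinarith [mul_nonneg hn hn, mul_nonneg (mul_nonneg hn hn) hn]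
  refine squeeze_zero (fun n => mul_nonneg (by positivity) (k6_nonneg n)) h ?_
  have := tendsto_one_div_add_atTop_nhds_zero_nat (𝕜 := ℝ)
  have h2 := this.const_mul 58
  simpa [div_eq_mul_inv] using h2

lemma k6_tendsto' : Filter.Tendsto k6 Filter.atTop (nhds 0) := by
  have h : ∀ n : ℕ, k6 n ≤ 58 / ((n : ℝ) + 1) := by
    intro n
    unfold k6
    rw [div_le_div_iff₀ (by positivity) (by positivity)]
    have hn : (0 : ℝ) ≤ n := Nat.cast_nonneg n
    nlinarith [mul_nonneg hn hn, mul_nonneg (mul_nonneg hn hn) hn]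
  refine squeeze_zero k6_nonneg h ?_
  have := tendsto_one_div_add_atTop_nhds_zero_nat (𝕜 := ℝ)
  have h2 := this.const_mul 58
  simpa [div_eq_mul_inv] using h2

lemma k1_tendsto : Filter.Tendsto k1 Filter.atTop (nhds 0) := by
  unfold k1
  apply Filter.Tendsto.div_atTop tendsto_const_nhds
  apply Real.tendsto_sqrt_atTop.comp
  exact Filter.tendsto_atTop_add_const_right _ _ tendsto_natCast_atTop_atTop

end LawOsc
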