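import Pool.Agent.LawOsc.Walk

/-! Averages over a lazy walk vary slowly with the time. -/

namespace LawOsc

open Finset

/-- The average of `h` over the lazy walk at time `n`. -/
noncomputable def EE (n : ℕ) (h : BG → ℝ) : ℝ := (∑ ω : Fin n → J, h (walkB ω)) / 136 ^ n

/-- The average of `h` over the walk without laziness at time `k`. -/
noncomputable def aa : ℕ → (BG → ℝ) → ℝ
  | 0, h => h 1
  | k + 1, h => (∑ i : I0, aa k (fun x => h (gen0 i * x))) / 68

/-- Binomial average. -/
noncomputable def bb (n : ℕ) (a : ℕ → ℝ) : ℝ := (∑ k ∈ range (n + 1), (n.choose k : ℝ) * a k) / 2 ^ n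

lemma aa_abs {B : ℝ} : ∀ (k : ℕ) (h : BG → ℝ), (∀ x, |h x| ≤ B) → |aa k h| ≤ B
  | 0, h, hh => hh 1
  | k + 1, h, hh => by
    unfold aa
    rw [abs_div, abs_of_pos (by norm_num : (0 : ℝ) < 68), div_le_iff₀ (by norm_num)]
    calc |∑ i : I0, aa k (fun x => h (gen0 i * x))|
        ≤ ∑ i : I0, |aa k (fun x => h (gen0 i * x))| := Finset.abs_sum_le_sum_abs _ _
      _ ≤ ∑ _i : I0, B := Finset.sum_le_sum fun i _ => aa_abs k _ fun x => hh _
      _ = B * 68 := by
          rw [Finset.sum_const, card_univ, nsmul_eq_mul]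
          simp [I0, Fintype.card_sum]
          ring

lemma EE_abs {B : ℝ} (n : ℕ) (h : BG → ℝ) (hh : ∀ x, |h x| ≤ B) : |EE n h| ≤ B := by
  unfold EE
  rw [abs_div, abs_of_pos (by positivity : (0 : ℝ) < 136 ^ n), div_le_iff₀ (by positivity)]
  calc |∑ ω : Fin n → J, h (walkB ω)| ≤ ∑ ω : Fin n → J, |h (walkB ω)| :=
        Finset.abs_sum_le_sum_abs _ _
    _ ≤ ∑ _ω : Fin n → J, B := Finset.sum_le_sum fun ω _ => hh _
    _ = B * 136 ^ n := by
        rw [Finset.sum_const, card_univ, nsmul_eq_mul, Fintype.card_fun, card_J, Fintype.card_fin]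
        push_cast; ring

lemma EE_sub (n : ℕ) (h g : BG → ℝ) : EE n h - EE n g = EE n (fun x => h x - g x) := by
  unfold EE
  rw [Finset.sum_sub_distrib, sub_div]

lemma EE_succ (n : ℕ) (h : BG → ℝ) :
    EE (n + 1) h = (EE n h + (∑ i : I0, EE n (fun x => h (gen0 i * x))) / 68) / 2 := by
  unfold EE
  have h1 : ∑ ω : Fin (n + 1) → J, h (walkB ω) =
      68 * ∑ ω : Fin n → J, h (walkB ω) + ∑ i : I0, ∑ ω : Fin n → J, h (gen0 i * walkB ω) := by
    rw [← (Fin.consEquiv (fun _ => J)).sum_comp, Fintype.sum_prod_type]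
    have h2 : ∀ s : J, ∑ ω : Fin n → J, h (walkB ((Fin.consEquiv fun _ => J) (s, ω))) =
        ∑ ω : Fin n → J, h (stepB s * walkB ω) := by
      intro s
      apply Finset.sum_congr rfl
      intro ω _
      show h (walkB (Fin.cons s ω : Fin (n + 1) → J)) = _
      rw [walkB_succ]
      simp
    rw [Finset.sum_congr rfl fun s _ => h2 s, Fintype.sum_prod_type, Fintype.sum_bool]
    congr 1
    · have : ∀ i : I0, ∑ ω : Fin n → J, h (stepB (true, i) * walkB ω) =
          ∑ ω : Fin n → J, h (walkB ω) := by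
        intro i
        simp [stepB]
      rw [Finset.sum_congr rfl fun i _ => this i, Finset.sum_const, card_univ, nsmul_eq_mul]
      simp [I0, Fintype.card_sum]
  rw [h1, ← Finset.sum_div, pow_succ]
  field_simp
  ring

lemma bb_succ (n : ℕ) (a : ℕ → ℝ) :
    bb (n + 1) a = (bb n a + bb n (fun k => a (k + 1))) / 2 := by
  unfold bb
  have h1 : ∑ k ∈ range (n + 1 + 1), ((n + 1).choose k : ℝ) * a k =
      ∑ k ∈ range (n + 1), (n.choose k : ℝ) * a k +
      ∑ k ∈ range (n + 1), (n.choose k : ℝ) * a (k + 1) := by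
    rw [Finset.sum_range_succ' _ (n + 1)]
    have h2 : ∀ k ∈ range (n + 1), ((n + 1).choose (k + 1) : ℝ) * a (k + 1) =
        (n.choose k : ℝ) * a (k + 1) + (n.choose (k + 1) : ℝ) * a (k + 1) := by
      intro k _
      rw [Nat.choose_succ_succ]
      push_cast; ring
    rw [Finset.sum_congr rfl h2, Finset.sum_add_distrib]
    rw [Finset.sum_range_succ (fun k => (n.choose (k + 1) : ℝ) * a (k + 1)) n,
      Nat.choose_succ_self, Finset.sum_range_succ' (fun k => (n.choose k : ℝ) * a k) n]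
    simp only [Nat.cast_zero, zero_mul, add_zero, Nat.choose_zero_right]
    ring
  rw [h1, pow_succ]
  field_simp

lemma bb_sum {ι : Type*} (s : Finset ι) (n : ℕ) (f : ι → ℕ → ℝ) :
    ∑ i ∈ s, bb n (f i) = bb n (fun k => ∑ i ∈ s, f i k) := by
  unfold bb
  rw [← Finset.sum_div, Finset.sum_comm]
  congr 1
  apply Finset.sum_congr rfl
  intro k _
  rw [Finset.mul_sum]

lemma bb_div (n : ℕ) (a : ℕ → ℝ) (c : ℝ) : bb n a / c = bb n (fun k => a k / c) := by
  unfold bb
  rw [div_right_comm, Finset.sum_div]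
  congr 1
  apply Finset.sum_congr rfl
  intro k _
  rw [mul_div_assoc]

lemma EE_eq : ∀ (n : ℕ) (h : BG → ℝ), EE n h = bb n (fun k => aa k h)
  | 0, h => by simp [EE, bb, aa, walkB_zero]
  | n + 1, h => by
    rw [EE_succ, bb_succ, EE_eq n h]
    have h1 : ∑ i : I0, EE n (fun x => h (gen0 i * x)) =
        ∑ i : I0, bb n (fun k => aa k (fun x => h (gen0 i * x))) :=
      Finset.sum_congr rfl fun i _ => EE_eq n _
    rw [h1, bb_sum, bb_div]
    rfl

lemma binom_variance (N : ℕ) :
    ∑ k ∈ range (N + 1), (N.choose k : ℝ) * (2 * (k : ℝ) - (N : ℝ)) ^ 2 =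
      (N : ℝ) * (2 : ℝ) ^ N := by
  have h := congrArg (Polynomial.eval (1 / 2 : ℝ)) (bernsteinPolynomial.variance (R := ℝ) N)
  rw [Polynomial.eval_finsetSum] at h
  simp only [bernsteinPolynomial, Polynomial.eval_mul, Polynomial.eval_pow, Polynomial.eval_sub,
    Polynomial.eval_natCast, Polynomial.eval_X, Polynomial.eval_one, nsmul_eq_mul] at h
  have h2 : ∀ k ∈ range (N + 1), (N.choose k : ℝ) * (2 * (k : ℝ) - N) ^ 2 =
      4 * 2 ^ N * ((↑N * (1 / 2) - (k : ℝ)) ^ 2 *
        (↑(N.choose k) * (1 / 2) ^ k * (1 - 1 / 2) ^ (N - k))) := by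
    intro k hk
    rw [mem_range] at hk
    have e : (2 : ℝ) ^ N = 2 ^ k * 2 ^ (N - k) := by rw [← pow_add]; congr 1; omega
    rw [e]
    have : (1 : ℝ) - 1 / 2 = 1 / 2 := by norm_num
    rw [this, div_pow, div_pow, one_pow, one_pow]
    field_simp
    ring
  rw [Finset.sum_congr rfl h2, ← Finset.mul_sum, h]
  ring

lemma bb_diff {B : ℝ} (n : ℕ) (a : ℕ → ℝ) (ha : ∀ k, |a k| ≤ B) :
    |bb (n + 1) a - bb n a| ≤ B / Real.sqrt (n + 1) := by
  have hB : 0 ≤ B := (abs_nonneg _).trans (ha 0)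
  set s : ℝ := Real.sqrt (n + 1) with hs
  have hs0 : 0 < s := Real.sqrt_pos.mpr (by positivity)
  have hs2 : s ^ 2 = n + 1 := Real.sq_sqrt (by positivity)
  have h1 : bb (n + 1) a - bb n a = (bb n (fun k => a (k + 1)) - bb n a) / 2 := by
    rw [bb_succ]; ring
  have h2 : (n + 1 : ℝ) * (∑ k ∈ range (n + 1), (n.choose k : ℝ) * a (k + 1) -
      ∑ k ∈ range (n + 1), (n.choose k : ℝ) * a k) =
      ∑ K ∈ range (n + 1 + 1), ((n + 1).choose K : ℝ) * (2 * (K : ℝ) - ((n + 1 : ℕ) : ℝ)) * a K := by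
    have e1 : (n + 1 : ℝ) * ∑ k ∈ range (n + 1), (n.choose k : ℝ) * a (k + 1) =
        ∑ K ∈ range (n + 1 + 1), ((n + 1).choose K : ℝ) * (K : ℝ) * a K := by
      rw [Finset.sum_range_succ' _ (n + 1), Finset.mul_sum]
      simp only [Nat.cast_zero, mul_zero, zero_mul, add_zero]
      apply Finset.sum_congr rfl
      intro k _
      have : ((n : ℝ) + 1) * n.choose k = (n + 1).choose (k + 1) * ((k : ℝ) + 1) := by
        exact_mod_cast Nat.add_one_mul_choose_eq n k
      push_cast
      linear_combination a (k + 1) * this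
    have e2 : (n + 1 : ℝ) * ∑ k ∈ range (n + 1), (n.choose k : ℝ) * a k =
        ∑ K ∈ range (n + 1 + 1), ((n + 1).choose K : ℝ) * ((n + 1 : ℝ) - (K : ℝ)) * a K := by
      rw [Finset.sum_range_succ _ (n + 1), Finset.mul_sum]
      have : ((n + 1 : ℝ) - ((n + 1 : ℕ) : ℝ)) = 0 := by push_cast; ring
      rw [this]
      simp only [mul_zero, zero_mul, add_zero]
      apply Finset.sum_congr rfl
      intro k hk
      rw [mem_range] at hk
      have h5 : (n + 1).choose k * (n + 1 - k) = (n + 1) * n.choose k := by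
        have h6 := Nat.choose_mul_succ_eq n k
        linarith
      have h7 : ((n + 1).choose k : ℝ) * ((n + 1 : ℝ) - (k : ℝ)) = (n + 1) * n.choose k := by
        have h8 : ((n + 1 - k : ℕ) : ℝ) = (n + 1 : ℝ) - (k : ℝ) := by
          rw [Nat.cast_sub (by omega)]; push_cast; ring
        rw [← h8]
        exact_mod_cast h5
      linear_combination (-a k) * h7
    rw [mul_sub, e1, e2, ← Finset.sum_sub_distrib]
    apply Finset.sum_congr rfl
    intro K _
    push_cast
    ring
  have h3 : |∑ K ∈ range (n + 1 + 1),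
      ((n + 1).choose K : ℝ) * (2 * (K : ℝ) - ((n + 1 : ℕ) : ℝ)) * a K| ≤ B * (s * 2 ^ (n + 1)) := by
    calc |∑ K ∈ range (n + 1 + 1),
        ((n + 1).choose K : ℝ) * (2 * (K : ℝ) - ((n + 1 : ℕ) : ℝ)) * a K|
        ≤ ∑ K ∈ range (n + 1 + 1),
          |((n + 1).choose K : ℝ) * (2 * (K : ℝ) - ((n + 1 : ℕ) : ℝ)) * a K| :=
          Finset.abs_sum_le_sum_abs _ _
      _ ≤ ∑ K ∈ range (n + 1 + 1), B * (((n + 1).choose K : ℝ) *
          ((s + (1 / s) * (2 * (K : ℝ) - ((n + 1 : ℕ) : ℝ)) ^ 2) / 2)) := by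
          apply Finset.sum_le_sum
          intro K _
          rw [abs_mul, abs_mul, Nat.abs_cast]
          set t : ℝ := 2 * (K : ℝ) - ((n + 1 : ℕ) : ℝ) with ht
          have h4 : |t| ≤ (s + (1 / s) * t ^ 2) / 2 := by
            have h5 : 0 ≤ (1 / s) * (s - |t|) ^ 2 := by positivity
            have h6 : (1 / s) * (s - |t|) ^ 2 = s - 2 * |t| + (1 / s) * t ^ 2 := by
              have : |t| ^ 2 = t ^ 2 := sq_abs t
              field_simp
              rw [← this]; ring
            linarith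
          calc ((n + 1).choose K : ℝ) * |t| * |a K|
              ≤ ((n + 1).choose K : ℝ) * ((s + (1 / s) * t ^ 2) / 2) * B := by
                gcongr
                exact ha K
            _ = _ := by ring
      _ = B * ((s / 2) * ∑ K ∈ range (n + 1 + 1), ((n + 1).choose K : ℝ) + (1 / (2 * s)) *
          ∑ K ∈ range (n + 1 + 1), ((n + 1).choose K : ℝ) *
            (2 * (K : ℝ) - ((n + 1 : ℕ) : ℝ)) ^ 2) := by
          simp only [Finset.mul_sum, ← Finset.sum_add_distrib]
          apply Finset.sum_congr rfl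
          intro K _
          field_simp
      _ = B * (s * 2 ^ (n + 1)) := by
          rw [binom_variance (n + 1)]
          have h9 : ∑ K ∈ range (n + 1 + 1), ((n + 1).choose K : ℝ) = 2 ^ (n + 1) := by
            exact_mod_cast Nat.sum_range_choose (n + 1)
          rw [h9]
          push_cast
          rw [← hs2]
          field_simp
          ring
  have h10 : |∑ k ∈ range (n + 1), (n.choose k : ℝ) * a (k + 1) -
      ∑ k ∈ range (n + 1), (n.choose k : ℝ) * a k| ≤ B * 2 ^ (n + 1) / s := by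
    rw [← h2, abs_mul, abs_of_pos (by positivity : (0 : ℝ) < n + 1), ← hs2] at h3
    rw [le_div_iff₀ hs0]
    have h11 : s * (|∑ k ∈ range (n + 1), (n.choose k : ℝ) * a (k + 1) -
      ∑ k ∈ range (n + 1), (n.choose k : ℝ) * a k| * s) ≤ s * (B * 2 ^ (n + 1)) := by
      nlinarith
    exact le_of_mul_le_mul_left h11 hs0
  rw [h1]
  unfold bb
  rw [← sub_div, abs_div, abs_div, abs_of_pos (by positivity : (0 : ℝ) < 2 ^ n),
    abs_of_pos (by norm_num : (0 : ℝ) < 2), div_div, div_le_iff₀ (by positivity)]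
  calc _ ≤ B * 2 ^ (n + 1) / s := h10
    _ = B / s * (2 ^ n * 2) := by rw [pow_succ]; ring

lemma EE_diff {B : ℝ} (n : ℕ) (h : BG → ℝ) (hh : ∀ x, |h x| ≤ B) :
    |EE (n + 1) h - EE n h| ≤ B / Real.sqrt (n + 1) := by
  rw [EE_eq, EE_eq]
  exact bb_diff n _ fun k => aa_abs k h hh

/-- Three independent walks. -/
noncomputable def E3 (n : ℕ) (f : BG → BG → BG → ℝ) : ℝ :=
  EE n fun x => EE n fun y => EE n fun z => f x y z

lemma E3_diff (n : ℕ) (f : BG → BG → BG → ℝ) (hf : ∀ x y z, |f x y z| ≤ 1) :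
    |E3 (n + 1) f - E3 n f| ≤ 3 / Real.sqrt (n + 1) := by
  unfold E3
  set δ : ℝ := 1 / Real.sqrt (n + 1) with hδ
  have h1 : ∀ x y, |EE (n + 1) (fun z => f x y z) - EE n (fun z => f x y z)| ≤ δ :=
    fun x y => EE_diff n _ (hf x y)
  have h2 : ∀ x, |EE (n + 1) (fun y => EE (n + 1) fun z => f x y z) -
      EE n (fun y => EE n fun z => f x y z)| ≤ 2 * δ := by
    intro x
    have e : EE (n + 1) (fun y => EE (n + 1) fun z => f x y z) -
        EE n (fun y => EE n fun z => f x y z) =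
        (EE (n + 1) (fun y => EE (n + 1) fun z => f x y z) -
          EE n (fun y => EE (n + 1) fun z => f x y z)) +
        EE n (fun y => (EE (n + 1) fun z => f x y z) - EE n fun z => f x y z) := by
      rw [← EE_sub]; ring
    rw [e]
    have a1 := EE_diff n (fun y => EE (n + 1) fun z => f x y z)
      (fun y => EE_abs (n + 1) _ (hf x y))
    have a2 := EE_abs n (fun y => (EE (n + 1) fun z => f x y z) - EE n fun z => f x y z) (h1 x)
    refine (abs_add_le _ _).trans ?_
    linarith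
  have e : EE (n + 1) (fun x => EE (n + 1) fun y => EE (n + 1) fun z => f x y z) -
      EE n (fun x => EE n fun y => EE n fun z => f x y z) =
      (EE (n + 1) (fun x => EE (n + 1) fun y => EE (n + 1) fun z => f x y z) -
        EE n (fun x => EE (n + 1) fun y => EE (n + 1) fun z => f x y z)) +
      EE n (fun x => (EE (n + 1) fun y => EE (n + 1) fun z => f x y z) -
        EE n fun y => EE n fun z => f x y z) := by
    rw [← EE_sub]; ring
  rw [e]
  have a1 := EE_diff n (fun x => EE (n + 1) fun y => EE (n + 1) fun z => f x y z)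
    (fun x => EE_abs (n + 1) _ (fun y => EE_abs (n + 1) _ (hf x y)))
  have a2 := EE_abs n _ h2
  refine (abs_add_le _ _).trans ?_
  have : 3 / Real.sqrt ((n : ℝ) + 1) = 3 * δ := by rw [hδ]; ring
  rw [this]
  linarith

end LawOsc
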