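import Pool.Agent.LawOsc.Final
import Pool.Agent.LawOsc.Slow

/-! Every real number in `[0,1]` is a partial limit. -/

namespace LawOsc

open Finset

/-- Indicator of the law. -/
noncomputable def ff (K : Set V) (x y z : BG) : ℝ :=
  open Classical in if (∀ k ∈ K, (cc x y z).coeff k = 0) then 1 else 0

lemma lawProb_E3 (K : Set V) (n : ℕ) : lawProb (SK K) ww n = E3 n (ff K) := by
  rw [lawProb_eq]
  unfold N3 E3 EE ff
  simp only [Finset.sum_div, div_div]
  apply Finset.sum_congr rfl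
  intro x _
  apply Finset.sum_congr rfl
  intro y _
  apply Finset.sum_congr rfl
  intro z _
  congr 1
  ring

lemma ff_abs (K : Set V) (x y z : BG) : |ff K x y z| ≤ 1 := by
  unfold ff
  split_ifs <;> simp

lemma law_slow (K : Set V) (n : ℕ) :
    |lawProb (SK K) ww (n + 1) - lawProb (SK K) ww n| ≤ 3 / Real.sqrt (n + 1) := by
  rw [lawProb_E3, lawProb_E3]
  exact E3_diff n _ (ff_abs K)

lemma law_slow' (K : Set V) (ε : ℝ) (hε : 0 < ε) : ∃ N, ∀ n, N ≤ n →
    |lawProb (SK K) ww (n + 1) - lawProb (SK K) ww n| < ε := by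
  have h : Filter.Tendsto (fun n : ℕ => 3 / Real.sqrt ((n : ℝ) + 1)) Filter.atTop (nhds 0) := by
    apply Filter.Tendsto.div_atTop tendsto_const_nhds
    apply Real.tendsto_sqrt_atTop.comp
    exact Filter.tendsto_atTop_add_const_right _ _ tendsto_natCast_atTop_atTop
  obtain ⟨N, hN⟩ := Filter.eventually_atTop.mp (h.eventually (gt_mem_nhds hε))
  exact ⟨N, fun n hn => lt_of_le_of_lt (law_slow K n) (hN n hn)⟩

lemma cross (p : ℕ → ℝ) (α ε : ℝ) (hα0 : 0 ≤ α) (hα1 : α ≤ 1) (hε : 0 < ε) (a b : ℕ) (hab : a ≤ b)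
    (hs : ∀ n, a ≤ n → |p (n + 1) - p n| < ε) (ha : p a ≤ ε) (hb : 1 - ε ≤ p b) :
    ∃ n, a ≤ n ∧ |p n - α| ≤ ε := by
  classical
  have hex : ∃ n, a ≤ n ∧ α - ε ≤ p n := ⟨b, hab, by linarith⟩
  obtain ⟨h1, h2⟩ := Nat.find_spec hex
  set n := Nat.find hex with hn
  refine ⟨n, h1, ?_⟩
  rw [abs_le]
  refine ⟨by linarith, ?_⟩
  rcases h1.eq_or_lt with h3 | h3
  · rw [← h3]; linarith
  · have h4 : ¬ (a ≤ n - 1 ∧ α - ε ≤ p (n - 1)) := Nat.find_min hex (by omega)
    push Not at h4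
    have h5 := h4 (by omega)
    have h6 := hs (n - 1) (by omega)
    rw [show n - 1 + 1 = n by omega] at h6
    have := (abs_lt.mp h6).2
    linarith

lemma cluster (α : ℝ) (hα0 : 0 ≤ α) (hα1 : α ≤ 1) :
    MapClusterPt α Filter.atTop (fun n => lawProb (SK KK) ww n) := by
  rw [mapClusterPt_iff_frequently]
  intro s hs
  rw [Filter.frequently_atTop]
  intro m
  obtain ⟨ε, hε, hball⟩ := Metric.mem_nhds_iff.mp hs
  obtain ⟨N, hN⟩ := law_slow' KK (ε / 2) (by linarith)
  have h1 : Filter.Tendsto (fun j : ℕ => 1 / ((j : ℝ) + 1)) Filter.atTop (nhds 0) :=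
    tendsto_one_div_add_atTop_nhds_zero_nat
  have h2 := h1.eventually (gt_mem_nhds (by linarith : (0 : ℝ) < ε / 2))
  obtain ⟨j, hj, hj2⟩ := (h2.and (Filter.eventually_ge_atTop (max m N))).exists
  have hs1 := small_times j
  obtain ⟨i, hi, hi2⟩ := (h2.and (Filter.eventually_ge_atTop (stn j))).exists
  have hs2 := large_times i
  obtain ⟨n, hn, hn2⟩ := cross (fun n => lawProb (SK KK) ww n) α (ε / 2) hα0 hα1 (by linarith)
    (stn j) (stn' i) (by omega) (fun n hn => hN n (by omega)) (by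
      show lawProb (SK KK) ww (stn j) ≤ ε / 2
      linarith [hs1.2]) (by
      show 1 - ε / 2 ≤ lawProb (SK KK) ww (stn' i)
      linarith [hs2.2])
  refine ⟨n, by omega, hball ?_⟩
  rw [Metric.mem_ball, Real.dist_eq]
  show |lawProb (SK KK) ww n - α| < ε
  have : |lawProb (SK KK) ww n - α| ≤ ε / 2 := hn2
  linarith

end LawOsc
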