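import Mathlib

/-! Anti-concentration for walks whose steps contain uniform sign vectors. -/

namespace LawOsc

open Finset

/-- Number of sign sequences of length `k` with sum `x`. -/
def BB : ℕ → ℤ → ℕ
  | 0, x => if x = 0 then 1 else 0
  | k + 1, x => BB k (x - 1) + BB k (x + 1)

lemma BB_off : ∀ (k : ℕ) (x : ℤ), (∀ j : ℕ, x ≠ 2 * j - k) → BB k x = 0
  | 0, x, h => by
    have := h 0
    simp only [BB]
    rw [if_neg]
    simpa using this
  | k + 1, x, h => by
    simp only [BB]
    rw [BB_off k (x - 1), BB_off k (x + 1)]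
    · intro j hj
      apply h j
      push_cast; omega
    · intro j hj
      apply h (j + 1)
      push_cast; omega

lemma BB_on : ∀ (k j : ℕ), BB k (2 * j - k) = k.choose j
  | 0, 0 => by simp [BB]
  | 0, j + 1 => by
    simp only [BB]
    rw [if_neg (by push_cast; omega)]
    simp
  | k + 1, 0 => by
    simp only [BB]
    have h1 : BB k ((2 * ((0 : ℕ) : ℤ) - ((k + 1 : ℕ) : ℤ)) - 1) = 0 := by
      apply BB_off
      intro j
      push_cast; omega
    have h2 : BB k ((2 * ((0 : ℕ) : ℤ) - ((k + 1 : ℕ) : ℤ)) + 1) = k.choose 0 := by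
      rw [← BB_on k 0]
      congr 1
      push_cast; ring
    rw [h1, h2]; simp
  | k + 1, j + 1 => by
    simp only [BB]
    have h1 : BB k ((2 * ((j + 1 : ℕ) : ℤ) - ((k + 1 : ℕ) : ℤ)) - 1) = k.choose j := by
      rw [← BB_on k j]
      congr 1
      push_cast; ring
    have h2 : BB k ((2 * ((j + 1 : ℕ) : ℤ) - ((k + 1 : ℕ) : ℤ)) + 1) = k.choose (j + 1) := by
      rw [← BB_on k (j + 1)]
      congr 1
      push_cast; ring
    rw [h1, h2, Nat.choose_succ_succ]

lemma BB_le (k : ℕ) (x : ℤ) : BB k x ≤ k.choose (k / 2) := by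
  by_cases h : ∃ j : ℕ, x = 2 * j - k
  · obtain ⟨j, rfl⟩ := h
    rw [BB_on]
    exact Nat.choose_le_middle j k
  · push Not at h
    rw [BB_off k x h]
    exact Nat.zero_le _

lemma central_sq (m : ℕ) : (2 * m + 1) * (Nat.centralBinom m) ^ 2 ≤ 16 ^ m := by
  induction m with
  | zero => simp
  | succ m ih =>
    have h := Nat.succ_mul_centralBinom_succ m
    have h2 : (m + 1) ^ 2 * ((2 * (m + 1) + 1) * (Nat.centralBinom (m + 1)) ^ 2) ≤
        (m + 1) ^ 2 * 16 ^ (m + 1) := by
      calc (m + 1) ^ 2 * ((2 * (m + 1) + 1) * (Nat.centralBinom (m + 1)) ^ 2)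
          = (2 * m + 3) * ((m + 1) * Nat.centralBinom (m + 1)) ^ 2 := by ring
        _ = (2 * m + 3) * (2 * (2 * m + 1) * Nat.centralBinom m) ^ 2 := by rw [h]
        _ = (4 * (2 * m + 3) * (2 * m + 1)) * ((2 * m + 1) * (Nat.centralBinom m) ^ 2) := by ring
        _ ≤ (16 * (m + 1) ^ 2) * 16 ^ m := by
            apply Nat.mul_le_mul _ ih
            nlinarith
        _ = (m + 1) ^ 2 * 16 ^ (m + 1) := by ring
    exact Nat.le_of_mul_le_mul_left h2 (by positivity)

lemma middle_sq (k : ℕ) : (k + 1) * (k.choose (k / 2)) ^ 2 ≤ 4 ^ k := by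
  rcases Nat.even_or_odd' k with ⟨m, rfl | rfl⟩
  · have h := central_sq m
    rw [Nat.centralBinom] at h
    rw [show 2 * m / 2 = m by omega, pow_mul]
    simpa using h
  · have h := central_sq (m + 1)
    rw [Nat.centralBinom] at h
    have h1 : (2 * (m + 1)).choose (m + 1) = 2 * (2 * m + 1).choose m := by
      rw [show 2 * (m + 1) = (2 * m + 1) + 1 by ring, Nat.choose_succ_succ,
        Nat.choose_symm_half]
      omega
    rw [h1] at h
    rw [show (2 * m + 1) / 2 = m by omega]
    have h2 : 4 * ((2 * m + 1 + 1) * (2 * m + 1).choose m ^ 2) ≤ 4 * 4 ^ (2 * m + 1) := by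
      calc 4 * ((2 * m + 1 + 1) * (2 * m + 1).choose m ^ 2)
          ≤ 4 * ((2 * (m + 1) + 1) * (2 * m + 1).choose m ^ 2) := by
            apply Nat.mul_le_mul_left
            apply Nat.mul_le_mul_right
            omega
        _ = (2 * (m + 1) + 1) * (2 * (2 * m + 1).choose m) ^ 2 := by ring
        _ ≤ 16 ^ (m + 1) := h
        _ = 4 * 4 ^ (2 * m + 1) := by
            rw [show (16 : ℕ) = 4 ^ 2 by norm_num, ← pow_mul, ← pow_succ']
            congr 1
    omega

/-- A sign. -/
def sg (b : Bool) : ℤ := if b then 1 else -1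

section

variable {I : Type*} [Fintype I] [DecidableEq I] {m : ℕ} (ι : (Fin m → Bool) ↪ I)

/-- The letters which are not sign vectors. -/
abbrev Rest : Type _ := {s : I // s ∉ Set.range ι}

open Classical in
/-- Forget the signs of a letter. -/
noncomputable def hist (s : I) : Option (Rest ι) :=
  if h : s ∈ Set.range ι then none else some ⟨s, h⟩

lemma hist_iota (σ : Fin m → Bool) : hist ι (ι σ) = none := by
  simp [hist]

lemma hist_eq_some {s : I} {t : Rest ι} (h : hist ι s = some t) : s = t.1 := by
  unfold hist at h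
  split_ifs at h with h1
  simp only [Option.some.injEq] at h
  rw [← h]

lemma hist_eq_none {s : I} (h : hist ι s = none) : ∃ σ, ι σ = s := by
  unfold hist at h
  split_ifs at h with h1
  exact h1

/-- The number of sign letters in a history. -/
def kn {n : ℕ} {R : Type*} [DecidableEq R] (η : Fin n → Option R) : ℕ :=
  (univ.filter fun j => η j = none).card

lemma kn_cons_none {n : ℕ} {R : Type*} [DecidableEq R] (η : Fin n → Option R) :
    kn (Fin.cons none η : Fin (n + 1) → Option R) = kn η + 1 := by
  unfold kn
  rw [Fin.univ_succ, Finset.filter_cons]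
  simp only [Fin.cons_zero, if_true]
  rw [Finset.card_cons, Finset.filter_map, Finset.card_map]
  congr 1

lemma kn_cons_some {n : ℕ} {R : Type*} [DecidableEq R] (t : R) (η : Fin n → Option R) :
    kn (Fin.cons (some t) η : Fin (n + 1) → Option R) = kn η := by
  unfold kn
  rw [Fin.univ_succ, Finset.filter_cons]
  simp only [Fin.cons_zero]
  rw [if_neg (by simp), Finset.filter_map, Finset.card_map]
  congr 1

variable (d : I → Fin m → ℤ)

lemma fiber (hd : ∀ σ i, d (ι σ) i = sg (σ i)) (hd0 : ∀ s, s ∉ Set.range ι → d s = 0) :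
    ∀ (n : ℕ) (η : Fin n → Option (Rest ι)) (x : Fin m → ℤ),
      (univ.filter fun ω : Fin n → I => (fun j => hist ι (ω j)) = η ∧ ∑ j, d (ω j) = x).card ≤
        ∏ i, BB (kn η) (x i)
  | 0, η, x => by
    classical
    by_cases hx : x = 0
    · subst hx
      calc _ ≤ (univ : Finset (Fin 0 → I)).card := Finset.card_filter_le _ _
        _ = 1 := by simp
        _ ≤ _ := by simp [kn, BB]
    · rw [Finset.card_eq_zero.mpr]
      · exact Nat.zero_le _
      · rw [Finset.filter_eq_empty_iff]
        rintro ω - ⟨-, h⟩
        apply hx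
        rw [← h]; simp
  | n + 1, η, x => by
    classical
    have key : (univ.filter fun ω : Fin (n + 1) → I =>
        (fun j => hist ι (ω j)) = η ∧ ∑ j, d (ω j) = x).card =
        ∑ s ∈ univ.filter (fun s => hist ι s = η 0),
          (univ.filter fun ω : Fin n → I => (fun j => hist ι (ω j)) = Fin.tail η ∧
            ∑ j, d (ω j) = x - d s).card := by
      rw [← Finset.card_sigma]
      refine Finset.card_bij' (fun ω _ => (⟨ω 0, Fin.tail ω⟩ : Σ _ : I, Fin n → I))
        (fun p _ => Fin.cons p.1 p.2) ?_ ?_ ?_ ?_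
      · intro ω hω
        simp only [mem_filter, mem_univ, true_and, mem_sigma] at hω ⊢
        obtain ⟨h1, h2⟩ := hω
        refine ⟨congrFun h1 0, ?_, ?_⟩
        · ext j : 1
          exact congrFun h1 j.succ
        · rw [← h2, Fin.sum_univ_succ]
          simp [Fin.tail]
      · rintro ⟨s, ω⟩ hp
        simp only [mem_filter, mem_univ, true_and, mem_sigma] at hp ⊢
        obtain ⟨h0, h1, h2⟩ := hp
        refine ⟨?_, ?_⟩
        · ext j : 1
          refine Fin.cases ?_ (fun j => ?_) j
          · simpa using h0
          · simpa [Fin.tail] using congrFun h1 j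
        · rw [Fin.sum_univ_succ]
          simp only [Fin.cons_zero, Fin.cons_succ]
          rw [h2]; abel
      · intro ω _
        exact Fin.cons_self_tail ω
      · rintro ⟨s, ω⟩ _
        simp
    rw [key]
    have hη : η = Fin.cons (η 0) (Fin.tail η) := (Fin.cons_self_tail η).symm
    rcases h0 : η 0 with _ | t
    · rw [hη, h0, kn_cons_none]
      calc ∑ s ∈ univ.filter (fun s => hist ι s = none), _
          ≤ ∑ s ∈ univ.filter (fun s => hist ι s = none),
            ∏ i, BB (kn (Fin.tail η)) ((x - d s) i) := by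
            apply Finset.sum_le_sum
            intro s _
            exact fiber hd hd0 n (Fin.tail η) (x - d s)
        _ = ∑ s ∈ univ.map ι, ∏ i, BB (kn (Fin.tail η)) ((x - d s) i) := by
            congr 1
            ext s
            simp only [mem_filter, mem_univ, true_and, mem_map]
            constructor
            · exact hist_eq_none ι
            · rintro ⟨σ, rfl⟩
              exact hist_iota ι σ
        _ = ∑ σ : Fin m → Bool, ∏ i, BB (kn (Fin.tail η)) (x i - sg (σ i)) := by
            rw [Finset.sum_map]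
            apply Finset.sum_congr rfl
            intro σ _
            apply Finset.prod_congr rfl
            intro i _
            rw [Pi.sub_apply, hd]
        _ = ∏ i, ∑ b : Bool, BB (kn (Fin.tail η)) (x i - sg b) := by
            rw [Finset.prod_univ_sum]
            apply Finset.sum_congr _ (fun _ _ => rfl)
            ext σ; simp
        _ ≤ ∏ i, BB (kn (Fin.tail η) + 1) (x i) := by
            apply le_of_eq
            apply Finset.prod_congr rfl
            intro i _
            rw [Fintype.sum_bool]
            simp [BB, sg]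
    · rw [hη, h0, kn_cons_some]
      calc ∑ s ∈ univ.filter (fun s => hist ι s = some t), _
          ≤ ∑ s ∈ {t.1}, (univ.filter fun ω : Fin n → I =>
              (fun j => hist ι (ω j)) = Fin.tail η ∧ ∑ j, d (ω j) = x - d s).card := by
            apply Finset.sum_le_sum_of_subset
            intro s hs
            simp only [mem_filter, mem_univ, true_and] at hs
            rw [mem_singleton]
            exact hist_eq_some ι hs
        _ ≤ ∏ i, BB (kn (Fin.tail η)) (x i) := by
            rw [Finset.sum_singleton]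
            have := fiber hd hd0 n (Fin.tail η) (x - d t.1)
            rw [hd0 t.1 t.2, sub_zero] at this ⊢
            exact this

lemma hist_count (hd : ∀ σ i, d (ι σ) i = sg (σ i)) (hd0 : ∀ s, s ∉ Set.range ι → d s = 0)
    (n : ℕ) (g : (Fin n → Option (Rest ι)) → Fin m → ℤ) :
    (univ.filter fun ω : Fin n → I => ∑ j, d (ω j) = g (fun j => hist ι (ω j))).card ≤
      ∑ η : Fin n → Option (Rest ι), ((kn η).choose (kn η / 2)) ^ m := by
  classical
  rw [Finset.card_eq_sum_card_fiberwise (f := fun ω : Fin n → I => fun j => hist ι (ω j))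
    (t := univ) (fun _ _ => Finset.mem_coe.mpr (mem_univ _))]
  apply Finset.sum_le_sum
  intro η _
  calc _ ≤ (univ.filter fun ω : Fin n → I => (fun j => hist ι (ω j)) = η ∧
        ∑ j, d (ω j) = g η).card := by
        apply Finset.card_le_card
        intro ω hω
        simp only [mem_filter, mem_univ, true_and] at hω ⊢
        refine ⟨hω.2, ?_⟩
        rw [hω.1, hω.2]
    _ ≤ ∏ i, BB (kn η) (g η i) := fiber ι d hd hd0 n η (g η)
    _ ≤ ∏ _i : Fin m, (kn η).choose (kn η / 2) :=
        Finset.prod_le_prod' fun i _ => BB_le _ _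
    _ = _ := by simp

end

/-- Binomial form of a sum over histories. -/
lemma sum_hist {R : Type*} [Fintype R] [DecidableEq R] (n : ℕ) (f : ℕ → ℝ) :
    ∑ η : Fin n → Option R, f (kn η) =
      ∑ k ∈ range (n + 1), (n.choose k : ℝ) * (Fintype.card R : ℝ) ^ (n - k) * f k := by
  induction n generalizing f with
  | zero => simp [kn]
  | succ n ih =>
    have h1 : ∑ η : Fin (n + 1) → Option R, f (kn η) =
        ∑ η : Fin n → Option R, f (kn η + 1) +
          (Fintype.card R : ℝ) * ∑ η : Fin n → Option R, f (kn η) := by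
      rw [← (Fin.consEquiv (fun _ => Option R)).sum_comp, Fintype.sum_prod_type,
        Fintype.sum_option]
      congr 1
      · apply Finset.sum_congr rfl
        intro η _
        show f (kn (Fin.cons none η : Fin (n + 1) → Option R)) = _
        rw [kn_cons_none]
      · have : ∀ t : R, ∑ η : Fin n → Option R,
            f (kn ((Fin.consEquiv fun _ => Option R) (some t, η))) =
            ∑ η : Fin n → Option R, f (kn η) := by
          intro t
          apply Finset.sum_congr rfl
          intro η _
          show f (kn (Fin.cons (some t) η : Fin (n + 1) → Option R)) = _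
          rw [kn_cons_some]
        rw [Finset.sum_congr rfl fun t _ => this t]
        simp
    rw [h1, ih (fun k => f (k + 1)), ih f, Finset.sum_range_succ' _ (n + 1)]
    have h2 : ∀ k ∈ range (n + 1),
        ((n + 1).choose (k + 1) : ℝ) * (Fintype.card R : ℝ) ^ (n + 1 - (k + 1)) * f (k + 1) =
        (n.choose k : ℝ) * (Fintype.card R : ℝ) ^ (n - k) * f (k + 1) +
        (n.choose (k + 1) : ℝ) * (Fintype.card R : ℝ) ^ (n - k) * f (k + 1) := by
      intro k _
      rw [Nat.choose_succ_succ, Nat.add_sub_add_right]
      push_cast; ring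
    rw [Finset.sum_congr rfl h2, Finset.sum_add_distrib, add_assoc]
    congr 1
    rw [Finset.mul_sum, Finset.sum_range_succ' _ n]
    rw [Finset.sum_range_succ _ n]
    have h3 : ((n.choose (n + 1) : ℕ) : ℝ) = 0 := by
      rw [Nat.choose_succ_self]; simp
    rw [h3]
    have h4 : ∀ k ∈ range n,
        (Fintype.card R : ℝ) * ((n.choose (k + 1) : ℝ) * (Fintype.card R : ℝ) ^ (n - (k + 1)) *
          f (k + 1)) =
        (n.choose (k + 1) : ℝ) * (Fintype.card R : ℝ) ^ (n - k) * f (k + 1) := by
      intro k hk
      rw [mem_range] at hk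
      rw [show n - k = (n - (k + 1)) + 1 by omega, pow_succ]; ring
    rw [Finset.sum_congr rfl h4]
    simp only [zero_mul, add_zero, Nat.choose_zero_right, Nat.cast_one, one_mul, Nat.sub_zero]
    ring

end LawOsc
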