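import Pool.Agent.LawOsc.Walk

/-! The two estimates. -/

namespace LawOsc

open Finset

/-- The sup norm. -/
def nrm (k : V) : ℕ := univ.sup fun i => (k i).natAbs

lemma le_nrm (k : V) (i : Fin 6) : (k i).natAbs ≤ nrm k :=
  Finset.le_sup (f := fun i => (k i).natAbs) (mem_univ i)

lemma exists_nrm (k : V) (M : ℕ) (h0 : 0 < M) (h : M ≤ nrm k) : ∃ i, M ≤ (k i).natAbs := by
  by_contra hc
  push Not at hc
  have : nrm k < M := by
    unfold nrm
    rw [Finset.sup_lt_iff (by simpa using h0)]
    intro i _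
    exact hc i
  omega

/-- The box. -/
noncomputable def box (N : ℕ) : Finset V := Fintype.piFinset fun _ => Finset.Icc (-(N : ℤ)) N

lemma mem_box {N : ℕ} {k : V} (h : nrm k ≤ N) : k ∈ box N := by
  rw [box, Fintype.mem_piFinset]
  intro i
  have := (le_nrm k i).trans h
  rw [Finset.mem_Icc]
  omega

lemma card_box (N : ℕ) : (box N).card = (2 * N + 1) ^ 6 := by
  rw [box, Fintype.card_piFinset]
  simp only [Int.card_Icc, prod_const, card_univ, Fintype.card_fin]
  congr 1
  omega

/-- Number of triples of walks with a property. -/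
noncomputable def N3 (n : ℕ) (P : (Fin n → J) → (Fin n → J) → (Fin n → J) → Prop) : ℝ :=
  open Classical in ∑ x, ∑ y, ∑ z, if P x y z then 1 else 0

lemma card_walks (n : ℕ) : (Fintype.card (Fin n → J) : ℝ) = 136 ^ n := by
  rw [Fintype.card_fun, card_J, Fintype.card_fin]; norm_num

lemma sum_set {n : ℕ} (T : Finset V) :
    (∑ z : Fin n → J, if (walkB z).v ∈ T then (1 : ℝ) else 0) ≤ T.card * (136 ^ n * k6 n) := by
  classical
  calc (∑ z : Fin n → J, if (walkB z).v ∈ T then (1 : ℝ) else 0)
      ≤ ∑ z : Fin n → J, ∑ r ∈ T, if (walkB z).v = r then (1 : ℝ) else 0 := by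
        apply Finset.sum_le_sum
        intro z _
        rw [Finset.sum_ite_eq]
    _ = ∑ r ∈ T, ∑ z : Fin n → J, if (walkB z).v = r then (1 : ℝ) else 0 := Finset.sum_comm
    _ ≤ ∑ r ∈ T, 136 ^ n * k6 n := by
        apply Finset.sum_le_sum
        intro r _
        refine le_trans (le_of_eq ?_) (conc_v n r)
        rw [Finset.card_filter]
        push_cast
        rfl
    _ = T.card * (136 ^ n * k6 n) := by rw [Finset.sum_const, nsmul_eq_mul]

lemma N3_far (n N : ℕ) :
    N3 n (fun x y z => ∃ k, nrm k ≤ N ∧ (cc (walkB x) (walkB y) (walkB z)).coeff k ≠ 0) ≤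
      (136 ^ n) ^ 3 * (32 * (2 * N + 1) ^ 6 * ((n : ℝ) ^ 2 * k6 n)) := by
  classical
  unfold N3
  have h : ∀ x y : Fin n → J, (∑ z : Fin n → J,
      if (∃ k, nrm k ≤ N ∧ (cc (walkB x) (walkB y) (walkB z)).coeff k ≠ 0) then (1 : ℝ) else 0) ≤
      32 * (2 * N + 1) ^ 6 * (n : ℝ) ^ 2 * (136 ^ n * k6 n) := by
    intro x y
    set P := pu (walkB x) (walkB y) * qu (walkB x) (walkB y) with hP
    set T : Finset V := Finset.image₂ (fun s k => s - k) P.coeff.support (box N) ∪
      Finset.image₂ (fun s k => k - s) P.coeff.support (box N) with hT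
    have hcard : (T.card : ℝ) ≤ 32 * (2 * N + 1) ^ 6 * (n : ℝ) ^ 2 := by
      have h1 : T.card ≤ 2 * (16 * n ^ 2 * (2 * N + 1) ^ 6) := by
        have hw : P.coeff.support.card ≤ 16 * n ^ 2 := wt_pq _ _ n (walk_wt x) (walk_wt y)
        have h2 : (Finset.image₂ (fun s k => s - k) P.coeff.support (box N)).card ≤
            16 * n ^ 2 * (2 * N + 1) ^ 6 := by
          refine (Finset.card_image₂_le _ _ _).trans ?_
          rw [card_box]
          exact Nat.mul_le_mul_right _ hw
        have h3 : (Finset.image₂ (fun s k => k - s) P.coeff.support (box N)).card ≤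
            16 * n ^ 2 * (2 * N + 1) ^ 6 := by
          refine (Finset.card_image₂_le _ _ _).trans ?_
          rw [card_box]
          exact Nat.mul_le_mul_right _ hw
        refine (Finset.card_union_le _ _).trans ?_
        omega
      calc (T.card : ℝ) ≤ ((2 * (16 * n ^ 2 * (2 * N + 1) ^ 6) : ℕ) : ℝ) := by exact_mod_cast h1
        _ = _ := by push_cast; ring
    calc _ ≤ ∑ z : Fin n → J, if (walkB z).v ∈ T then (1 : ℝ) else 0 := by
          apply Finset.sum_le_sum
          intro z _
          split_ifs with h1 h2 h2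
          · exact le_refl _
          · exfalso
            obtain ⟨k, hk, hk2⟩ := h1
            apply h2
            rw [cc, ← hP, coeff_diff] at hk2
            rw [hT, mem_union]
            by_cases h4 : P.coeff (k + (walkB z).v) = 0
            · have h5 : P.coeff (k - (walkB z).v) ≠ 0 := by
                intro h6; apply hk2; rw [h4, h6, sub_zero]
              right
              rw [Finset.mem_image₂]
              exact ⟨_, Finsupp.mem_support_iff.mpr h5, k, mem_box hk, by abel⟩
            · left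
              rw [Finset.mem_image₂]
              exact ⟨_, Finsupp.mem_support_iff.mpr h4, k, mem_box hk, by abel⟩
          · exact zero_le_one
          · exact le_refl _
      _ ≤ T.card * (136 ^ n * k6 n) := sum_set T
      _ ≤ _ := mul_le_mul_of_nonneg_right hcard (mul_nonneg (by positivity) (k6_nonneg n))
  calc _ ≤ ∑ _x : Fin n → J, ∑ _y : Fin n → J,
        32 * (2 * N + 1) ^ 6 * (n : ℝ) ^ 2 * (136 ^ n * k6 n) :=
        Finset.sum_le_sum fun x _ => Finset.sum_le_sum fun y _ => h x y
    _ = _ := by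
        simp only [Finset.sum_const, card_univ, nsmul_eq_mul, card_walks]
        ring

lemma sum_comm_zero (n : ℕ) (F : BG → BG → Prop) (A : BG → ℤ)
    (hF : ∀ x y, F x y → ∀ i, A y * x.v i = y.v i * A x)
    (hA : ∀ (i : Fin 6) (m φ : ℤ), m ≠ 0 → ((univ.filter fun ω : Fin n → J =>
      A (walkB ω) * m = (walkB ω).v i * φ).card : ℝ) ≤ 136 ^ n * k1 n) :
    (open Classical in ∑ x : Fin n → J, ∑ y : Fin n → J,
      if F (walkB x) (walkB y) then (1 : ℝ) else 0) ≤ (136 ^ n) ^ 2 * (k6 n + k1 n) := by
  classical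
  have h : ∀ x : Fin n → J,
      (∑ y : Fin n → J, if F (walkB x) (walkB y) then (1 : ℝ) else 0) ≤
      (if (walkB x).v ∈ ({0} : Finset V) then (1 : ℝ) else 0) * 136 ^ n + 136 ^ n * k1 n := by
    intro x
    have hk : 0 ≤ 136 ^ n * k1 n := mul_nonneg (by positivity) (k1_nonneg n)
    split_ifs with h0
    · have : (∑ y : Fin n → J, if F (walkB x) (walkB y) then (1 : ℝ) else 0) ≤
          ∑ _y : Fin n → J, (1 : ℝ) := by
        apply Finset.sum_le_sum
        intro y _
        split_ifs <;> norm_num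
      rw [Finset.sum_const, card_univ, nsmul_eq_mul, card_walks, mul_one] at this
      linarith
    · rw [mem_singleton] at h0
      obtain ⟨i, hi⟩ : ∃ i, (walkB x).v i ≠ 0 := by
        by_contra hc
        push Not at hc
        exact h0 (funext hc)
      rw [zero_mul, zero_add]
      refine le_trans ?_ (hA i ((walkB x).v i) (A (walkB x)) hi)
      rw [Finset.card_filter]
      push_cast
      apply Finset.sum_le_sum
      intro y _
      split_ifs with h1 h2 h2
      · exact le_refl _
      · exact absurd (hF _ _ h1 i) h2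
      · exact zero_le_one
      · exact le_refl _
  calc _ ≤ ∑ x : Fin n → J, ((if (walkB x).v ∈ ({0} : Finset V) then (1 : ℝ) else 0) * 136 ^ n +
        136 ^ n * k1 n) := Finset.sum_le_sum fun x _ => h x
    _ = (∑ x : Fin n → J, if (walkB x).v ∈ ({0} : Finset V) then (1 : ℝ) else 0) * 136 ^ n +
        136 ^ n * (136 ^ n * k1 n) := by
        rw [Finset.sum_add_distrib, Finset.sum_mul, Finset.sum_const, card_univ, nsmul_eq_mul,
          card_walks]
    _ ≤ (1 * (136 ^ n * k6 n)) * 136 ^ n + 136 ^ n * (136 ^ n * k1 n) := by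
        have := sum_set (n := n) ({0} : Finset V)
        rw [Finset.card_singleton, Nat.cast_one] at this
        have h2 : (0 : ℝ) ≤ 136 ^ n := by positivity
        have := mul_le_mul_of_nonneg_right this h2
        linarith
    _ = _ := by ring

lemma N3_near (n M : ℕ) (hM : 0 < M) :
    N3 n (fun x y z => ∀ k, (cc (walkB x) (walkB y) (walkB z)).coeff k ≠ 0 → nrm k < M) ≤
      (136 ^ n) ^ 3 * ((2 * M + 1) ^ 6 * k6 n + 2 * (k6 n + k1 n)) := by
  classical
  unfold N3
  have hp : (∑ x : Fin n → J, ∑ y : Fin n → J,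
      if pu (walkB x) (walkB y) = 0 then (1 : ℝ) else 0) ≤ (136 ^ n) ^ 2 * (k6 n + k1 n) := by
    convert sum_comm_zero n (fun x y => pu x y = 0) (fun x => aug x.p)
      (fun x y h i => pu_zero h i) (conc_p n)
  have hq : (∑ x : Fin n → J, ∑ y : Fin n → J,
      if qu (walkB x) (walkB y) = 0 then (1 : ℝ) else 0) ≤ (136 ^ n) ^ 2 * (k6 n + k1 n) := by
    convert sum_comm_zero n (fun x y => qu x y = 0) (fun x => aug x.q)
      (fun x y h i => qu_zero h i) (conc_q n)
  have hz := sum_set (n := n) (box M)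
  rw [card_box] at hz
  push_cast at hz
  have hpt : ∀ x y z : Fin n → J,
      (if (∀ k, (cc (walkB x) (walkB y) (walkB z)).coeff k ≠ 0 → nrm k < M) then (1 : ℝ) else 0) ≤
      (if (walkB z).v ∈ box M then (1 : ℝ) else 0) +
      (if pu (walkB x) (walkB y) = 0 then (1 : ℝ) else 0) +
      (if qu (walkB x) (walkB y) = 0 then (1 : ℝ) else 0) := by
    intro x y z
    by_cases h : (∀ k, (cc (walkB x) (walkB y) (walkB z)).coeff k ≠ 0 → nrm k < M)
    swap
    · rw [if_neg h]
      positivity
    rw [if_pos h]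
    by_cases h1 : (walkB z).v ∈ box M
    · rw [if_pos h1]
      have : (0 : ℝ) ≤ (if pu (walkB x) (walkB y) = 0 then (1 : ℝ) else 0) := by positivity
      have : (0 : ℝ) ≤ (if qu (walkB x) (walkB y) = 0 then (1 : ℝ) else 0) := by positivity
      linarith
    by_cases h2 : pu (walkB x) (walkB y) = 0
    · rw [if_pos h2]
      have : (0 : ℝ) ≤ (if (walkB z).v ∈ box M then (1 : ℝ) else 0) := by positivity
      have : (0 : ℝ) ≤ (if qu (walkB x) (walkB y) = 0 then (1 : ℝ) else 0) := by positivity
      linarith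
    by_cases h3 : qu (walkB x) (walkB y) = 0
    · rw [if_pos h3]
      have : (0 : ℝ) ≤ (if (walkB z).v ∈ box M then (1 : ℝ) else 0) := by positivity
      have : (0 : ℝ) ≤ (if pu (walkB x) (walkB y) = 0 then (1 : ℝ) else 0) := by positivity
      linarith
    exfalso
    have h4 : M ≤ nrm (walkB z).v := by
      by_contra hc
      exact h1 (mem_box (by omega))
    obtain ⟨i, hi⟩ := exists_nrm _ M hM h4
    have hne : (walkB z).v i ≠ 0 := by
      intro h0
      rw [h0] at hi
      simp at hi
      omega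
    obtain ⟨k, hk, hk2⟩ := escape (pu (walkB x) (walkB y) * qu (walkB x) (walkB y))
      (mul_ne_zero h2 h3) (walkB z).v i hne
    have h5 := h k hk
    have h6 := le_nrm k i
    rw [Int.abs_eq_natAbs, Int.abs_eq_natAbs] at hk2
    omega
  calc _ ≤ ∑ x : Fin n → J, ∑ y : Fin n → J, ∑ z : Fin n → J,
        ((if (walkB z).v ∈ box M then (1 : ℝ) else 0) +
        (if pu (walkB x) (walkB y) = 0 then (1 : ℝ) else 0) +
        (if qu (walkB x) (walkB y) = 0 then (1 : ℝ) else 0)) :=
        Finset.sum_le_sum fun x _ => Finset.sum_le_sum fun y _ => Finset.sum_le_sum fun z _ =>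
          hpt x y z
    _ = (136 ^ n) ^ 2 * (∑ z : Fin n → J, if (walkB z).v ∈ box M then (1 : ℝ) else 0) +
        136 ^ n * (∑ x : Fin n → J, ∑ y : Fin n → J,
          if pu (walkB x) (walkB y) = 0 then (1 : ℝ) else 0) +
        136 ^ n * (∑ x : Fin n → J, ∑ y : Fin n → J,
          if qu (walkB x) (walkB y) = 0 then (1 : ℝ) else 0) := by
        simp only [Finset.sum_add_distrib, Finset.sum_const, card_univ, nsmul_eq_mul, card_walks,
          ← Finset.mul_sum]
        ring
    _ ≤ (136 ^ n) ^ 2 * ((2 * M + 1) ^ 6 * (136 ^ n * k6 n)) +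
        136 ^ n * ((136 ^ n) ^ 2 * (k6 n + k1 n)) + 136 ^ n * ((136 ^ n) ^ 2 * (k6 n + k1 n)) := by
        gcongr
    _ = _ := by ring

end LawOsc
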