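import Mathlib

/-! Law probabilities of lazy random walks (definitions for MP_6a29fd_al). -/

namespace LawOsc

variable {G : Type*} [Group G]

/-- One lazy step: the sample `(true, s)` stays, the sample `(false, s)` is the step `s`. Under
the uniform measure on `Bool × S` the step is `1` with probability `1/2` and uniform on `S`
otherwise. -/
def lazyStep (S : Finset G) (s : Bool × S) : G := if s.1 then 1 else s.2

/-- The walk `R_n = ξ_1 ⋯ ξ_n`. -/
def lazyWalk (S : Finset G) {n : ℕ} (ω : Fin n → Bool × S) : G :=
  (List.ofFn fun j => lazyStep S (ω j)).prod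

/-- `p_n(G, S, w)`: the probability that `w` vanishes on `d` independent lazy walks of length
`n`, computed on the finite sample space of `d` sequences of `n` steps. -/
noncomputable def lawProb (S : Finset G) {d : ℕ} (w : FreeGroup (Fin d)) (n : ℕ) : ℝ :=
  (Nat.card {ω : Fin d → Fin n → Bool × S //
    FreeGroup.lift (fun i => lazyWalk S (ω i)) w = 1} : ℝ) /
  (Nat.card (Fin d → Fin n → Bool × S) : ℝ)

lemma lawProb_nonneg (S : Finset G) {d : ℕ} (w : FreeGroup (Fin d)) (n : ℕ) :
    0 ≤ lawProb S w n := by
  unfold lawProb; positivity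

lemma lawProb_le_one (S : Finset G) {d : ℕ} (w : FreeGroup (Fin d)) (n : ℕ) :
    lawProb S w n ≤ 1 := by
  unfold lawProb
  apply div_le_one_of_le₀ _ (by positivity)
  norm_cast
  exact Nat.card_le_card_of_injective _ Subtype.val_injective

end LawOsc
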