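import Pool.Agent.LawOsc.Defs
import Pool.Agent.LawOsc.Count

/-! The group for MP_6a29fd_al and its law probabilities. -/

namespace LawOsc

open Finset
open scoped commutatorElement

/-- The generators of `HG K`. -/
noncomputable def genH (K : Set V) (i : I0) : HG K := ⟨gen0 i, 0⟩

/-- The group. -/
noncomputable abbrev GK (K : Set V) : Subgroup (HG K) := Subgroup.closure (Set.range (genH K))

/-- The generators in the group. -/
noncomputable def genG (K : Set V) (i : I0) : GK K :=
  ⟨genH K i, Subgroup.subset_closure (Set.mem_range_self i)⟩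

lemma sg_inj {a b : Bool} (h : sg a = sg b) : a = b := by
  cases a <;> cases b <;> simp [sg] at h ⊢

lemma single_inj {a b : ℤ}
    (h : (AddMonoidAlgebra.single (0 : V) a : Lam) = AddMonoidAlgebra.single 0 b) : a = b := by
  have := congrArg aug h
  rwa [aug_single, aug_single] at this

lemma sg_ne (a : Bool) : sg a ≠ 0 := by cases a <;> simp [sg]

lemma single_ne {a : ℤ} (h : a ≠ 0) : (AddMonoidAlgebra.single (0 : V) a : Lam) ≠ 0 := by
  intro h0
  have := congrArg aug h0
  rw [aug_single, map_zero] at this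
  exact h this

lemma gen0_inj : Function.Injective gen0 := by
  rintro (σ | s | s) (τ | t | t) h <;> simp only [gen0, BG.mk.injEq] at h
  · congr 1
    ext i
    have := congrFun h.1 i
    rw [sg_inj this]
  · exact absurd h.2.1.symm (single_ne (sg_ne t))
  · exact absurd h.2.2.symm (single_ne (sg_ne t))
  · exact absurd h.2.1 (single_ne (sg_ne s))
  · rw [sg_inj (single_inj h.2.1)]
  · exact absurd h.2.1 (single_ne (sg_ne s))
  · exact absurd h.2.2 (single_ne (sg_ne s))
  · exact absurd h.2.2 (single_ne (sg_ne s))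
  · rw [sg_inj (single_inj h.2.2)]

lemma genG_inj (K : Set V) : Function.Injective (genG K) := by
  intro i j h
  apply gen0_inj
  exact congrArg (fun x : GK K => x.1.b) h

/-- The generating set. -/
noncomputable def SK (K : Set V) : Finset (GK K) := univ.map ⟨genG K, genG_inj K⟩

lemma sg_not (a : Bool) : sg (!a) = - sg a := by cases a <;> simp [sg]

lemma genH_inv (K : Set V) (i : I0) : ∃ j, (genH K i)⁻¹ = genH K j := by
  rcases i with σ | s | s
  · refine ⟨Sum.inl fun i => !(σ i), ?_⟩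
    ext1
    · ext1
      · funext i
        simp [genH, gen0, sg_not]
      · simp [genH, gen0]
      · simp [genH, gen0]
    · simp [genH, gen0, coc]
  · refine ⟨Sum.inr (Sum.inl (!s)), ?_⟩
    ext1
    · ext1
      · simp [genH, gen0]
      · simp [genH, gen0, sg_not, tau_zero, AddMonoidAlgebra.single_neg]
      · simp [genH, gen0]
    · simp [genH, gen0, coc]
  · refine ⟨Sum.inr (Sum.inr (!s)), ?_⟩
    ext1
    · ext1
      · simp [genH, gen0]
      · simp [genH, gen0]
      · simp [genH, gen0, sg_not, tau_zero, AddMonoidAlgebra.single_neg]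
    · simp [genH, gen0, coc]

lemma SK_symm (K : Set V) : ∀ s ∈ SK K, s⁻¹ ∈ SK K := by
  intro s hs
  simp only [SK, mem_map, mem_univ, true_and, Function.Embedding.coeFn_mk] at hs ⊢
  obtain ⟨i, rfl⟩ := hs
  obtain ⟨j, hj⟩ := genH_inv K i
  refine ⟨j, ?_⟩
  apply Subtype.ext
  exact hj.symm

lemma SK_gen (K : Set V) : Subgroup.closure (SK K : Set (GK K)) = ⊤ := by
  have h : (SK K : Set (GK K)) = (fun x : GK K => (x : HG K)) ⁻¹' (Set.range (genH K)) := by
    ext x
    simp only [SK, coe_map, coe_univ, Set.image_univ, Set.mem_range, Set.mem_preimage,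
      Function.Embedding.coeFn_mk]
    constructor
    · rintro ⟨i, rfl⟩
      exact ⟨i, rfl⟩
    · rintro ⟨i, hi⟩
      exact ⟨i, Subtype.ext hi⟩
  rw [h]
  exact Subgroup.closure_closure_coe_preimage

/-- The labels are the elements of the generating set. -/
noncomputable def eS (K : Set V) : I0 ≃ SK K :=
  Equiv.ofBijective (fun i => ⟨genG K i, by
    simp [SK]⟩) ⟨fun i j h => genG_inj K (by simpa using h), by
      rintro ⟨s, hs⟩
      simp only [SK, mem_map, mem_univ, true_and, Function.Embedding.coeFn_mk] at hs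
      obtain ⟨i, rfl⟩ := hs
      exact ⟨i, rfl⟩⟩

/-- The samples. -/
noncomputable def eJ (K : Set V) : J ≃ Bool × SK K := Equiv.prodCongr (Equiv.refl _) (eS K)

/-- The map to `BG`. -/
noncomputable def toB (K : Set V) : GK K →* BG := (prB K).comp (GK K).subtype

lemma toB_walk (K : Set V) {n : ℕ} (ω : Fin n → J) :
    toB K (lazyWalk (SK K) (fun j => eJ K (ω j))) = walkB ω := by
  unfold lazyWalk walkB
  rw [map_list_prod, List.map_ofFn]
  congr 2
  ext j : 1
  simp only [Function.comp]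
  rcases hj : ω j with ⟨b, i⟩
  cases b
  · rfl
  · simp [lazyStep, stepB, eJ]

/-- The commutator of the first two letters. -/
noncomputable def uw : FreeGroup (Fin 3) :=
  FreeGroup.of 0 * FreeGroup.of 1 * (FreeGroup.of 0)⁻¹ * (FreeGroup.of 1)⁻¹

/-- The law. -/
noncomputable def ww : FreeGroup (Fin 3) :=
  uw * (FreeGroup.of 2 * uw * (FreeGroup.of 2)⁻¹) * uw⁻¹ *
    (FreeGroup.of 2 * uw * (FreeGroup.of 2)⁻¹)⁻¹

lemma law_iff (K : Set V) (g : Fin 3 → GK K) :
    FreeGroup.lift g ww = 1 ↔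
      ∀ k ∈ K, (cc (toB K (g 0)) (toB K (g 1)) (toB K (g 2))).coeff k = 0 := by
  have h1 : FreeGroup.lift g ww = 1 ↔ ((FreeGroup.lift g ww : GK K) : HG K) = 1 :=
    ⟨fun h => by rw [h]; rfl, fun h => Subtype.ext h⟩
  rw [h1]
  set u : HG K := (g 0 : HG K) * (g 1 : HG K) * (g 0 : HG K)⁻¹ * (g 1 : HG K)⁻¹ with hu
  have h2 : ((FreeGroup.lift g ww : GK K) : HG K) =
      u * ((g 2 : HG K) * u * (g 2 : HG K)⁻¹) * u⁻¹ * ((g 2 : HG K) * u * (g 2 : HG K)⁻¹)⁻¹ := by
    simp [ww, uw, hu]
  rw [h2]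
  have hub : u.b = toB K (g 0) * toB K (g 1) * (toB K (g 0))⁻¹ * (toB K (g 1))⁻¹ := by
    simp [hu, toB, prB]
  have hv : u.b.v = 0 := by rw [hub]; exact comm_v _ _
  rw [comm_conj u (g 2 : HG K) hv, cut_eq_zero_iff, hub, comm_p, comm_q]
  rfl

/-- Triples. -/
def e3 (α : Type*) : (Fin 3 → α) ≃ α × α × α where
  toFun f := (f 0, f 1, f 2)
  invFun p := ![p.1, p.2.1, p.2.2]
  left_inv f := by ext i; fin_cases i <;> rfl
  right_inv p := rfl

lemma lawProb_eq (K : Set V) (n : ℕ) :
    lawProb (SK K) ww n =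
      N3 n (fun x y z => ∀ k ∈ K, (cc (walkB x) (walkB y) (walkB z)).coeff k = 0) /
        (136 ^ n) ^ 3 := by
  classical
  unfold lawProb
  have e : (Fin 3 → Fin n → J) ≃ (Fin 3 → Fin n → Bool × SK K) :=
    Equiv.arrowCongr (Equiv.refl _) (Equiv.arrowCongr (Equiv.refl _) (eJ K))
  have hden : (Nat.card (Fin 3 → Fin n → Bool × SK K) : ℝ) = (136 ^ n) ^ 3 := by
    rw [← Nat.card_congr e, Nat.card_eq_fintype_card, Fintype.card_fun, Fintype.card_fun, card_J,
      Fintype.card_fin, Fintype.card_fin]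
    push_cast; rfl
  rw [hden]
  congr 1
  have hnum : Nat.card {ω : Fin 3 → Fin n → Bool × SK K //
      FreeGroup.lift (fun i => lazyWalk (SK K) (ω i)) ww = 1} =
      Nat.card {p : (Fin n → J) × (Fin n → J) × (Fin n → J) //
        ∀ k ∈ K, (cc (walkB p.1) (walkB p.2.1) (walkB p.2.2)).coeff k = 0} := by
    symm
    apply Nat.card_congr
    refine Equiv.subtypeEquiv ((e3 _).symm.trans
      (Equiv.arrowCongr (Equiv.refl _) (Equiv.arrowCongr (Equiv.refl _) (eJ K)))) ?_
    rintro ⟨x, y, z⟩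
    rw [law_iff]
    have hx : toB K (lazyWalk (SK K) (((e3 _).symm.trans
      (Equiv.arrowCongr (Equiv.refl _) (Equiv.arrowCongr (Equiv.refl _) (eJ K)))) (x, y, z) 0)) =
        walkB x := toB_walk K x
    have hy : toB K (lazyWalk (SK K) (((e3 _).symm.trans
      (Equiv.arrowCongr (Equiv.refl _) (Equiv.arrowCongr (Equiv.refl _) (eJ K)))) (x, y, z) 1)) =
        walkB y := toB_walk K y
    have hz : toB K (lazyWalk (SK K) (((e3 _).symm.trans
      (Equiv.arrowCongr (Equiv.refl _) (Equiv.arrowCongr (Equiv.refl _) (eJ K)))) (x, y, z) 2)) =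
        walkB z := toB_walk K z
    rw [hx, hy, hz]
  rw [hnum, Nat.card_eq_fintype_card, Fintype.card_subtype, Finset.card_filter]
  push_cast
  unfold N3
  rw [Fintype.sum_prod_type]
  apply Finset.sum_congr rfl
  intro x _
  rw [Fintype.sum_prod_type]

lemma N3_mono {n : ℕ} {P Q : (Fin n → J) → (Fin n → J) → (Fin n → J) → Prop}
    (h : ∀ x y z, P x y z → Q x y z) : N3 n P ≤ N3 n Q := by
  classical
  unfold N3
  apply Finset.sum_le_sum; intro x _
  apply Finset.sum_le_sum; intro y _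
  apply Finset.sum_le_sum; intro z _
  split_ifs with h1 h2 h2
  · exact le_refl _
  · exact absurd (h _ _ _ h1) h2
  · exact zero_le_one
  · exact le_refl _

lemma N3_compl {n : ℕ} (P Q : (Fin n → J) → (Fin n → J) → (Fin n → J) → Prop)
    (h : ∀ x y z, P x y z ∨ Q x y z) : (136 ^ n) ^ 3 ≤ N3 n P + N3 n Q := by
  classical
  have h1 : ((136 : ℝ) ^ n) ^ 3 = ∑ _x : Fin n → J, ∑ _y : Fin n → J, ∑ _z : Fin n → J, (1 : ℝ) := by
    simp only [Finset.sum_const, card_univ, nsmul_eq_mul, card_walks]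
    ring
  rw [h1]
  unfold N3
  rw [← Finset.sum_add_distrib]
  apply Finset.sum_le_sum; intro x _
  rw [← Finset.sum_add_distrib]
  apply Finset.sum_le_sum; intro y _
  rw [← Finset.sum_add_distrib]
  apply Finset.sum_le_sum; intro z _
  rcases h x y z with h2 | h2
  · rw [if_pos h2]
    have : (0 : ℝ) ≤ (if Q x y z then (1 : ℝ) else 0) := by positivity
    linarith
  · rw [if_pos h2]
    have : (0 : ℝ) ≤ (if P x y z then (1 : ℝ) else 0) := by positivity
    linarith

/-- A bound for all exponents occurring at time `n`. -/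
lemma exists_rho (n : ℕ) : ∃ ρ : ℕ, ∀ (x y z : Fin n → J) (k : V),
    (cc (walkB x) (walkB y) (walkB z)).coeff k ≠ 0 → nrm k ≤ ρ := by
  refine ⟨univ.sup fun p : (Fin n → J) × (Fin n → J) × (Fin n → J) =>
    (cc (walkB p.1) (walkB p.2.1) (walkB p.2.2)).coeff.support.sup nrm, ?_⟩
  intro x y z k hk
  refine le_trans ?_ (Finset.le_sup (f := fun p : (Fin n → J) × (Fin n → J) × (Fin n → J) =>
    (cc (walkB p.1) (walkB p.2.1) (walkB p.2.2)).coeff.support.sup nrm) (mem_univ (x, y, z)))
  exact Finset.le_sup (f := nrm) (Finsupp.mem_support_iff.mpr hk)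

noncomputable def rho (n : ℕ) : ℕ := (exists_rho n).choose

lemma rho_spec (n : ℕ) (x y z : Fin n → J) (k : V)
    (hk : (cc (walkB x) (walkB y) (walkB z)).coeff k ≠ 0) : nrm k ≤ rho n :=
  (exists_rho n).choose_spec x y z k hk

lemma law_small (K : Set V) (n M : ℕ) (hM : 0 < M) (hK : ∀ k, M ≤ nrm k → nrm k ≤ rho n → k ∈ K) :
    lawProb (SK K) ww n ≤ (2 * M + 1) ^ 6 * k6 n + 2 * (k6 n + k1 n) := by
  rw [lawProb_eq, div_le_iff₀ (by positivity), mul_comm]
  refine le_trans (N3_mono ?_) (N3_near n M hM)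
  intro x y z h k hk
  by_contra hc
  exact hk (h k (hK k (by omega) (rho_spec n x y z k hk)))

lemma law_large (K : Set V) (n N : ℕ) (hK : ∀ k ∈ K, nrm k ≤ rho n → nrm k ≤ N) :
    1 - 32 * (2 * N + 1) ^ 6 * ((n : ℝ) ^ 2 * k6 n) ≤ lawProb (SK K) ww n := by
  rw [lawProb_eq, le_div_iff₀ (by positivity)]
  have h1 := N3_far n N
  have h2 := N3_compl (n := n)
    (fun x y z => ∀ k ∈ K, (cc (walkB x) (walkB y) (walkB z)).coeff k = 0)
    (fun x y z => ∃ k, nrm k ≤ N ∧ (cc (walkB x) (walkB y) (walkB z)).coeff k ≠ 0) ?_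
  · nlinarith
  · intro x y z
    by_cases h : ∀ k ∈ K, (cc (walkB x) (walkB y) (walkB z)).coeff k = 0
    · exact Or.inl h
    · right
      push Not at h
      obtain ⟨k, hk, hk2⟩ := h
      exact ⟨k, hK k hk (rho_spec n x y z k hk2), hk2⟩

lemma exists_small (M : ℕ) (ε : ℝ) (hε : 0 < ε) (n0 : ℕ) : ∃ n, n0 ≤ n ∧
    (2 * M + 1) ^ 6 * k6 n + 2 * (k6 n + k1 n) ≤ ε := by
  have h : Filter.Tendsto (fun n => (2 * (M : ℝ) + 1) ^ 6 * k6 n + 2 * (k6 n + k1 n))
      Filter.atTop (nhds ((2 * (M : ℝ) + 1) ^ 6 * 0 + 2 * (0 + 0))) :=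
    (k6_tendsto'.const_mul _).add ((k6_tendsto'.add k1_tendsto).const_mul 2)
  rw [mul_zero, add_zero, mul_zero, add_zero] at h
  have h2 := (h.eventually (gt_mem_nhds hε)).and (Filter.eventually_ge_atTop n0)
  obtain ⟨n, hn, hn2⟩ := h2.exists
  exact ⟨n, hn2, hn.le⟩

lemma exists_large (N : ℕ) (ε : ℝ) (hε : 0 < ε) (n0 : ℕ) : ∃ n, n0 ≤ n ∧
    32 * (2 * (N : ℝ) + 1) ^ 6 * ((n : ℝ) ^ 2 * k6 n) ≤ ε := by
  have h : Filter.Tendsto (fun n : ℕ => 32 * (2 * (N : ℝ) + 1) ^ 6 * ((n : ℝ) ^ 2 * k6 n))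
      Filter.atTop (nhds (32 * (2 * (N : ℝ) + 1) ^ 6 * 0)) := k6_tendsto.const_mul _
  rw [mul_zero] at h
  have h2 := (h.eventually (gt_mem_nhds hε)).and (Filter.eventually_ge_atTop n0)
  obtain ⟨n, hn, hn2⟩ := h2.exists
  exact ⟨n, hn2, hn.le⟩

/-- The stages: start of the annulus. -/
noncomputable def stM : ℕ → ℕ
  | 0 => 1
  | j + 1 =>
    let n := (exists_small (stM j) (1 / ((j : ℝ) + 1)) (by positivity) j).choose
    let N := max (rho n) (stM j)
    let n' := (exists_large N (1 / ((j : ℝ) + 1)) (by positivity) j).choose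
    max (rho n') N + 1

/-- Time of small probability. -/
noncomputable def stn (j : ℕ) : ℕ :=
  (exists_small (stM j) (1 / ((j : ℝ) + 1)) (by positivity) j).choose

/-- End of the annulus. -/
noncomputable def stN (j : ℕ) : ℕ := max (rho (stn j)) (stM j)

/-- Time of large probability. -/
noncomputable def stn' (j : ℕ) : ℕ :=
  (exists_large (stN j) (1 / ((j : ℝ) + 1)) (by positivity) j).choose

lemma stM_succ (j : ℕ) : stM (j + 1) = max (rho (stn' j)) (stN j) + 1 := rfl

lemma stM_pos (j : ℕ) : 0 < stM j := by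
  cases j with
  | zero => exact Nat.one_pos
  | succ j => rw [stM_succ]; omega

lemma stM_le_stN (j : ℕ) : stM j ≤ stN j := le_max_right _ _

lemma stM_mono : StrictMono stM := by
  apply strictMono_nat_of_lt_succ
  intro j
  rw [stM_succ]
  have := stM_le_stN j
  have := le_max_right (rho (stn' j)) (stN j)
  omega

lemma stN_lt (i j : ℕ) (h : i < j) : stN i < stM j := by
  have h1 : stM (i + 1) ≤ stM j := stM_mono.monotone h
  rw [stM_succ] at h1
  have := le_max_right (rho (stn' i)) (stN i)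
  omega

/-- The exponents. -/
def KK : Set V := {k | ∃ j, stM j ≤ nrm k ∧ nrm k ≤ stN j}

lemma small_times (j : ℕ) : j ≤ stn j ∧ lawProb (SK KK) ww (stn j) ≤ 1 / ((j : ℝ) + 1) := by
  have h := (exists_small (stM j) (1 / ((j : ℝ) + 1)) (by positivity) j).choose_spec
  refine ⟨h.1, le_trans (law_small KK (stn j) (stM j) (stM_pos j) ?_) h.2⟩
  intro k h1 h2
  exact ⟨j, h1, le_trans h2 (le_max_left _ _)⟩

lemma large_times (j : ℕ) :
    j ≤ stn' j ∧ 1 - 1 / ((j : ℝ) + 1) ≤ lawProb (SK KK) ww (stn' j) := by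
  have h := (exists_large (stN j) (1 / ((j : ℝ) + 1)) (by positivity) j).choose_spec
  refine ⟨h.1, le_trans ?_ (law_large KK (stn' j) (stN j) ?_)⟩
  · have := h.2
    show 1 - 1 / ((j : ℝ) + 1) ≤
      1 - 32 * (2 * (stN j : ℝ) + 1) ^ 6 * (((stn' j : ℕ) : ℝ) ^ 2 * k6 (stn' j))
    have h3 : 32 * (2 * (stN j : ℝ) + 1) ^ 6 * (((stn' j : ℕ) : ℝ) ^ 2 * k6 (stn' j)) ≤
      1 / ((j : ℝ) + 1) := h.2
    linarith
  · rintro k ⟨i, h1, h2⟩ h3
    by_contra hc
    push Not at hc
    have h4 : j < i := by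
      by_contra h5
      push Not at h5
      rcases h5.lt_or_eq with h6 | h6
      · have := stN_lt i j h6
        have := stM_le_stN j
        omega
      · rw [h6] at h2; omega
    have h7 : stM (j + 1) ≤ stM i := stM_mono.monotone h4
    rw [stM_succ] at h7
    have := le_max_left (rho (stn' j)) (stN j)
    omega

lemma limsup_eq : Filter.limsup (fun n => lawProb (SK KK) ww n) Filter.atTop = 1 := by
  apply le_antisymm
  · apply Filter.limsup_le_of_le
    · exact Filter.isCoboundedUnder_le_of_le _ (fun n => lawProb_nonneg _ _ n)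
    · exact Filter.Eventually.of_forall fun n => lawProb_le_one _ _ n
  · have hb : Filter.IsBoundedUnder (· ≤ ·) Filter.atTop (fun n => lawProb (SK KK) ww n) :=
      Filter.isBoundedUnder_of ⟨1, fun n => lawProb_le_one _ _ n⟩
    apply le_of_forall_lt
    intro c hc
    have h1 : Filter.Tendsto (fun j : ℕ => 1 - 1 / ((j : ℝ) + 1)) Filter.atTop (nhds (1 - 0)) :=
      tendsto_const_nhds.sub tendsto_one_div_add_atTop_nhds_zero_nat
    rw [sub_zero] at h1
    obtain ⟨c', hc1, hc2⟩ := exists_between hc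
    refine lt_of_lt_of_le hc1 (Filter.le_limsup_of_frequently_le ?_ hb)
    rw [Filter.frequently_atTop]
    intro a
    obtain ⟨j, hj, hj2⟩ := ((h1.eventually (lt_mem_nhds hc2)).and
      (Filter.eventually_ge_atTop a)).exists
    have := large_times j
    exact ⟨stn' j, by omega, by linarith [this.2]⟩

lemma liminf_eq : Filter.liminf (fun n => lawProb (SK KK) ww n) Filter.atTop = 0 := by
  apply le_antisymm
  · have hb : Filter.IsBoundedUnder (· ≥ ·) Filter.atTop (fun n => lawProb (SK KK) ww n) :=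
      Filter.isBoundedUnder_of ⟨0, fun n => lawProb_nonneg _ _ n⟩
    apply le_of_forall_gt
    intro c hc
    have h1 : Filter.Tendsto (fun j : ℕ => 1 / ((j : ℝ) + 1)) Filter.atTop (nhds 0) :=
      tendsto_one_div_add_atTop_nhds_zero_nat
    obtain ⟨c', hc1, hc2⟩ := exists_between hc
    refine lt_of_le_of_lt (Filter.liminf_le_of_frequently_le ?_ hb) hc2
    rw [Filter.frequently_atTop]
    intro a
    obtain ⟨j, hj, hj2⟩ := ((h1.eventually (gt_mem_nhds hc1)).and
      (Filter.eventually_ge_atTop a)).exists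
    have := small_times j
    exact ⟨stn j, by omega, by linarith [this.2]⟩
  · apply Filter.le_liminf_of_le
    · exact Filter.isCoboundedUnder_ge_of_le _ (fun n => lawProb_le_one _ _ n)
    · exact Filter.Eventually.of_forall fun n => lawProb_nonneg _ _ n

lemma central (K : Set V) : derivedSeries (GK K) 2 ≤ Subgroup.center (GK K) := by
  have h1 : derivedSeries (GK K) 1 ≤ (prV.comp (toB K)).ker := by
    rw [derivedSeries_succ, derivedSeries_zero, Subgroup.commutator_le]
    intro x _ y _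
    rw [MonoidHom.mem_ker, map_commutatorElement, commutatorElement_eq_one_iff_commute]
    exact Commute.all _ _
  rw [derivedSeries_succ, Subgroup.commutator_le]
  intro x hx y hy
  have hxv : (x : HG K).b.v = 0 := h1 hx
  have hyv : (y : HG K).b.v = 0 := h1 hy
  have hb : ((⁅x, y⁆ : GK K) : HG K).b = 1 := by
    have : ((⁅x, y⁆ : GK K) : HG K).b =
        (x : HG K).b * (y : HG K).b * (x : HG K).b⁻¹ * (y : HG K).b⁻¹ := by
      simp [commutatorElement_def]
    rw [this]
    ext1
    · simp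
    · rw [comm_p, hxv, hyv, tau_zero]; simp
    · rw [comm_q, hxv, hyv, neg_zero, tau_zero]; simp
  rw [Subgroup.mem_center_iff]
  intro g
  apply Subtype.ext
  show (g : HG K) * ((⁅x, y⁆ : GK K) : HG K) = ((⁅x, y⁆ : GK K) : HG K) * (g : HG K)
  ext1
  · rw [HG.mul_b, HG.mul_b, hb]; simp
  · rw [HG.mul_r, HG.mul_r, hb]
    simp only [coc, BG.one_p, BG.one_q, mul_zero, zero_mul, map_zero]
    ring

end LawOsc
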