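import Mathlib

/-!
The class two by abelian groups used for MP_6a29fd_al: `BG` is the semidirect product of
`Λ × Λ` by the lattice `ℤ^6`, and `HG K` is its central extension by `Λ` with the cocycle
`coc` cut down to the exponents in `K`.
-/

namespace LawOsc

open AddMonoidAlgebra

/-- The lattice. -/
abbrev V := Fin 6 → ℤ

/-- Laurent polynomials in six variables with integer coefficients. -/
abbrev Lam := AddMonoidAlgebra ℤ V

/-- The monomial with exponent `v`. -/
noncomputable def tau (v : V) : Lam := AddMonoidAlgebra.single v 1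

lemma tau_add (v w : V) : tau (v + w) = tau v * tau w := by
  simp [tau, AddMonoidAlgebra.single_mul_single]

lemma tau_zero : tau 0 = 1 := by
  simp [tau, AddMonoidAlgebra.one_def]

lemma tau_neg_mul (v : V) : tau (-v) * tau v = 1 := by
  rw [← tau_add, neg_add_cancel, tau_zero]

lemma tau_mul_neg (v : V) : tau v * tau (-v) = 1 := by
  rw [← tau_add, add_neg_cancel, tau_zero]

/-- The group of triples `(v, p, q)`: `v` a shift, `p`, `q` Laurent polynomials;
`v` acts by multiplication with `tau v` on the first and with `tau (-v)` on the second. -/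
@[ext] structure BG where
  v : V
  p : Lam
  q : Lam

noncomputable instance : Mul BG :=
  ⟨fun x y => ⟨x.v + y.v, x.p + tau x.v * y.p, x.q + tau (-x.v) * y.q⟩⟩
noncomputable instance : One BG := ⟨⟨0, 0, 0⟩⟩
noncomputable instance : Inv BG := ⟨fun x => ⟨-x.v, -(tau (-x.v) * x.p), -(tau x.v * x.q)⟩⟩

@[simp] lemma BG.mul_v (x y : BG) : (x * y).v = x.v + y.v := rfl
@[simp] lemma BG.mul_p (x y : BG) : (x * y).p = x.p + tau x.v * y.p := rfl
@[simp] lemma BG.mul_q (x y : BG) : (x * y).q = x.q + tau (-x.v) * y.q := rfl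
@[simp] lemma BG.one_v : (1 : BG).v = 0 := rfl
@[simp] lemma BG.one_p : (1 : BG).p = 0 := rfl
@[simp] lemma BG.one_q : (1 : BG).q = 0 := rfl
@[simp] lemma BG.inv_v (x : BG) : (x⁻¹).v = -x.v := rfl
@[simp] lemma BG.inv_p (x : BG) : (x⁻¹).p = -(tau (-x.v) * x.p) := rfl
@[simp] lemma BG.inv_q (x : BG) : (x⁻¹).q = -(tau x.v * x.q) := rfl

noncomputable instance : Group BG :=
  Group.ofLeftAxioms
    (by
      intro x y z
      ext1
      · simp [add_assoc]
      · simp only [BG.mul_p, BG.mul_v, tau_add]; ring
      · simp only [BG.mul_q, BG.mul_v, neg_add, tau_add]; ring)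
    (by
      intro x
      ext1
      · simp
      · simp [tau_zero]
      · simp [tau_zero])
    (by
      intro x
      ext1
      · simp
      · simp
      · simp)

/-- The cocycle. -/
noncomputable def coc (x y : BG) : Lam := x.p * (tau (-x.v) * y.q)

lemma coc_assoc (x y z : BG) : coc x y + coc (x * y) z = coc y z + coc x (y * z) := by
  have h : tau x.v * tau (-x.v) = 1 := tau_mul_neg _
  simp only [coc, BG.mul_p, BG.mul_v, BG.mul_q, neg_add, tau_add]
  linear_combination (y.p * tau (-y.v) * z.q) * h

open Classical in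
/-- Restriction of a Laurent polynomial to the exponents in `K`. -/
noncomputable def cut (K : Set V) : Lam →+ Lam where
  toFun f := AddMonoidAlgebra.ofCoeff (f.coeff.filter (· ∈ K))
  map_zero' := by
    ext a
    rw [AddMonoidAlgebra.coeff_zero, Finsupp.filter_zero]
  map_add' f g := by ext; simp [Finsupp.filter_add]

/-- The central extension. -/
@[ext] structure HG (K : Set V) where
  b : BG
  r : Lam

variable {K : Set V}

noncomputable instance : Mul (HG K) := ⟨fun x y => ⟨x.b * y.b, x.r + y.r + cut K (coc x.b y.b)⟩⟩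
noncomputable instance : One (HG K) := ⟨⟨1, 0⟩⟩
noncomputable instance : Inv (HG K) := ⟨fun x => ⟨x.b⁻¹, -x.r - cut K (coc x.b⁻¹ x.b)⟩⟩

@[simp] lemma HG.mul_b (x y : HG K) : (x * y).b = x.b * y.b := rfl
@[simp] lemma HG.mul_r (x y : HG K) : (x * y).r = x.r + y.r + cut K (coc x.b y.b) := rfl
@[simp] lemma HG.one_b : (1 : HG K).b = 1 := rfl
@[simp] lemma HG.one_r : (1 : HG K).r = 0 := rfl
@[simp] lemma HG.inv_b (x : HG K) : (x⁻¹).b = x.b⁻¹ := rfl
@[simp] lemma HG.inv_r (x : HG K) : (x⁻¹).r = -x.r - cut K (coc x.b⁻¹ x.b) := rfl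

noncomputable instance : Group (HG K) :=
  Group.ofLeftAxioms
    (by
      intro x y z
      ext1
      · simp [mul_assoc]
      · have h := congrArg (cut K) (coc_assoc x.b y.b z.b)
        rw [map_add, map_add] at h
        simp only [HG.mul_r, HG.mul_b]
        linear_combination h)
    (by
      intro x
      ext1
      · simp
      · simp [coc])
    (by
      intro x
      ext1
      · simp
      · simp only [HG.mul_r, HG.inv_r, HG.inv_b, HG.one_r]; abel)

/-- The projection. -/
noncomputable def prB (K : Set V) : HG K →* BG where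
  toFun := HG.b
  map_one' := rfl
  map_mul' _ _ := rfl

/-- The projection to the lattice. -/
noncomputable def prV : BG →* Multiplicative V where
  toFun x := Multiplicative.ofAdd x.v
  map_one' := rfl
  map_mul' _ _ := rfl

lemma comm_v (x y : BG) : (x * y * x⁻¹ * y⁻¹).v = 0 := by
  simp

lemma comm_p (x y : BG) : (x * y * x⁻¹ * y⁻¹).p = (1 - tau y.v) * x.p - (1 - tau x.v) * y.p := by
  have h1 := tau_mul_neg x.v
  have h2 := tau_mul_neg y.v
  simp only [BG.mul_p, BG.mul_v, BG.inv_p, BG.inv_v, tau_add]
  linear_combination (-(tau y.v * x.p)) * h1 - (y.p * tau x.v * tau (-x.v)) * h2 - y.p * h1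

lemma comm_q (x y : BG) :
    (x * y * x⁻¹ * y⁻¹).q = (1 - tau (-y.v)) * x.q - (1 - tau (-x.v)) * y.q := by
  have h1 := tau_mul_neg x.v
  have h2 := tau_mul_neg y.v
  simp only [BG.mul_q, BG.mul_v, BG.inv_q, BG.inv_v, neg_add, tau_add, neg_neg]
  linear_combination (-(tau (-y.v) * x.q)) * h1 - (y.q * tau x.v * tau (-x.v)) * h2 - y.q * h1

/-- The value of `[u, z u z⁻¹]` when `u` has trivial shift. -/
lemma comm_conj (u z : HG K) (hu : u.b.v = 0) :
    (u * (z * u * z⁻¹) * u⁻¹ * (z * u * z⁻¹)⁻¹ = 1) ↔
      cut K (u.b.p * u.b.q * (tau (-z.b.v) - tau z.b.v)) = 0 := by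
  set u' := z * u * z⁻¹ with hu'
  have e1 : u' * z = z * u := by rw [hu']; group
  have eb : u'.b * z.b = z.b * u.b := congrArg HG.b e1
  have ev : u'.b.v = 0 := by
    have := congrArg BG.v eb
    simp only [BG.mul_v, hu, add_zero] at this
    simpa using this
  have ep : u'.b.p = tau z.b.v * u.b.p := by
    have := congrArg BG.p eb
    simp only [BG.mul_p, ev, tau_zero, one_mul] at this
    linear_combination this
  have eq : u'.b.q = tau (-z.b.v) * u.b.q := by
    have := congrArg BG.q eb
    simp only [BG.mul_q, ev, neg_zero, tau_zero, one_mul] at this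
    linear_combination this
  have hc : u * u' * u⁻¹ * u'⁻¹ = 1 ↔ u * u' = u' * u := by
    constructor
    · intro h
      calc u * u' = (u * u' * u⁻¹ * u'⁻¹) * (u' * u) := by group
        _ = u' * u := by rw [h, one_mul]
    · intro h
      rw [h]; group
  rw [hc]
  have hbb : u.b * u'.b = u'.b * u.b := by
    ext1
    · simp [hu, ev]
    · simp only [BG.mul_p, hu, ev, tau_zero, one_mul]; ring
    · simp only [BG.mul_q, hu, ev, neg_zero, tau_zero, one_mul]; ring
  have key : cut K (u.b.p * u.b.q * (tau (-z.b.v) - tau z.b.v)) =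
      (u * u').r - (u' * u).r := by
    have h1 : u.b.p * u.b.q * (tau (-z.b.v) - tau z.b.v) = coc u.b u'.b - coc u'.b u.b := by
      simp only [coc, hu, ev, neg_zero, tau_zero, one_mul, ep, eq]; ring
    rw [h1, map_sub]
    simp only [HG.mul_r]; ring
  rw [key, sub_eq_zero]
  constructor
  · intro h
    exact congrArg HG.r h
  · intro h
    ext1
    · exact hbb
    · exact h

end LawOsc
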