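import Pool.Agent.LawOsc.Grp

/-! Elementary facts on Laurent polynomials used for MP_6a29fd_al. -/

namespace LawOsc

open AddMonoidAlgebra

lemma coeff_mul_tau (P : Lam) (r k : V) : (P * tau r).coeff k = P.coeff (k - r) := by
  rw [tau, AddMonoidAlgebra.coeff_mul_single_apply, mul_one, sub_eq_add_neg]

lemma coeff_diff (P : Lam) (r k : V) :
    (P * (tau (-r) - tau r)).coeff k = P.coeff (k + r) - P.coeff (k - r) := by
  rw [mul_sub, AddMonoidAlgebra.coeff_sub, Finsupp.sub_apply, coeff_mul_tau, coeff_mul_tau,
    sub_neg_eq_add]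

lemma escape_pos (P : Lam) (hP : P ≠ 0) (r : V) (i : Fin 6) (hr : 0 < r i) :
    ∃ k : V, (P * (tau (-r) - tau r)).coeff k ≠ 0 ∧ r i ≤ |k i| := by
  have hne : P.coeff.support.Nonempty := by
    rw [Finsupp.support_nonempty_iff]
    intro h
    apply hP
    have : P = AddMonoidAlgebra.ofCoeff P.coeff := rfl
    rw [this, h]; rfl
  obtain ⟨kp, hkp, hmax⟩ := Finset.exists_max_image P.coeff.support (fun k => k i) hne
  obtain ⟨km, hkm, hmin⟩ := Finset.exists_min_image P.coeff.support (fun k => k i) hne
  have h1 : (P * (tau (-r) - tau r)).coeff (kp + r) ≠ 0 := by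
    rw [coeff_diff, add_sub_cancel_right]
    have : P.coeff (kp + r + r) = 0 := by
      by_contra hc
      have := hmax _ (Finsupp.mem_support_iff.mpr hc)
      simp only [Pi.add_apply] at this
      omega
    rw [this, zero_sub, neg_ne_zero]
    exact Finsupp.mem_support_iff.mp hkp
  have h2 : (P * (tau (-r) - tau r)).coeff (km - r) ≠ 0 := by
    rw [coeff_diff, sub_add_cancel]
    have : P.coeff (km - r - r) = 0 := by
      by_contra hc
      have := hmin _ (Finsupp.mem_support_iff.mpr hc)
      simp only [Pi.sub_apply] at this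
      omega
    rw [this, sub_zero]
    exact Finsupp.mem_support_iff.mp hkm
  have h3 : km i ≤ kp i := hmin _ hkp
  by_cases h4 : r i ≤ |(kp + r) i|
  · exact ⟨_, h1, h4⟩
  · refine ⟨_, h2, ?_⟩
    simp only [Pi.add_apply, Pi.sub_apply] at h4 ⊢
    push Not at h4
    have := (abs_lt.mp h4).2
    rw [le_abs]
    right
    omega

lemma escape (P : Lam) (hP : P ≠ 0) (r : V) (i : Fin 6) (hr : r i ≠ 0) :
    ∃ k : V, (P * (tau (-r) - tau r)).coeff k ≠ 0 ∧ |r i| ≤ |k i| := by
  rcases lt_or_gt_of_ne hr with h | h
  · obtain ⟨k, hk, hk2⟩ := escape_pos P hP (-r) i (by simpa using h)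
    refine ⟨k, ?_, ?_⟩
    · rw [neg_neg] at hk
      intro h0
      apply hk
      have : P * (tau r - tau (-r)) = -(P * (tau (-r) - tau r)) := by ring
      rw [this, AddMonoidAlgebra.coeff_neg, Finsupp.neg_apply, h0, neg_zero]
    · rw [abs_of_neg h]
      simpa using hk2
  · obtain ⟨k, hk, hk2⟩ := escape_pos P hP r i h
    exact ⟨k, hk, by rwa [abs_of_pos h]⟩

lemma cut_eq_zero_iff (K : Set V) (f : Lam) : cut K f = 0 ↔ ∀ k ∈ K, f.coeff k = 0 := by
  classical
  constructor
  · intro h k hk
    have := congrArg (fun g : Lam => g.coeff k) h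
    simp only [cut, AddMonoidHom.coe_mk, ZeroHom.coe_mk, AddMonoidAlgebra.coeff_zero,
      Finsupp.zero_apply, AddMonoidAlgebra.coeff_ofCoeff] at this
    rwa [Finsupp.filter_apply_pos _ _ hk] at this
  · intro h
    ext k
    simp only [cut, AddMonoidHom.coe_mk, ZeroHom.coe_mk, AddMonoidAlgebra.coeff_zero,
      Finsupp.zero_apply, AddMonoidAlgebra.coeff_ofCoeff]
    rw [Finsupp.filter_apply]
    split_ifs with hk
    · exact h k hk
    · rfl

/-- Sum of the coefficients. -/
noncomputable def aug : Lam →+ ℤ where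
  toFun f := f.coeff.sum fun _ a => a
  map_zero' := by simp
  map_add' f g := by
    rw [AddMonoidAlgebra.coeff_add, Finsupp.sum_add_index'] <;> simp

/-- First moment of the coefficients. -/
noncomputable def mom (i : Fin 6) : Lam →+ ℤ where
  toFun f := f.coeff.sum fun k a => a * k i
  map_zero' := by simp
  map_add' f g := by
    rw [AddMonoidAlgebra.coeff_add, Finsupp.sum_add_index'] <;> intros <;> ring

lemma aug_single (k : V) (a : ℤ) : aug (AddMonoidAlgebra.single k a) = a := by
  simp [aug]

lemma mom_single (i : Fin 6) (k : V) (a : ℤ) :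
    mom i (AddMonoidAlgebra.single k a) = a * k i := by
  simp [mom]

lemma aug_tau_mul (v : V) (f : Lam) : aug (tau v * f) = aug f := by
  induction f using AddMonoidAlgebra.induction_linear with
  | zero => simp
  | add f g hf hg => rw [mul_add, map_add, map_add, hf, hg]
  | single m a => rw [tau, AddMonoidAlgebra.single_mul_single, aug_single, aug_single, one_mul]

lemma mom_tau_mul (i : Fin 6) (v : V) (f : Lam) :
    mom i (tau v * f) = mom i f + v i * aug f := by
  induction f using AddMonoidAlgebra.induction_linear with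
  | zero => simp
  | add f g hf hg => rw [mul_add, map_add, map_add, map_add, hf, hg]; ring
  | single m a =>
    rw [tau, AddMonoidAlgebra.single_mul_single, mom_single, mom_single, aug_single, one_mul]
    simp only [Pi.add_apply]; ring

lemma mom_one_sub (i : Fin 6) (v : V) (f : Lam) : mom i ((1 - tau v) * f) = -(v i * aug f) := by
  rw [sub_mul, one_mul, map_sub, mom_tau_mul]; ring

/-- The number of monomials. -/
noncomputable def wt (f : Lam) : ℕ := f.coeff.support.card

lemma wt_zero : wt 0 = 0 := by simp [wt]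

lemma wt_add (f g : Lam) : wt (f + g) ≤ wt f + wt g := by
  classical
  unfold wt
  rw [AddMonoidAlgebra.coeff_add]
  exact (Finset.card_le_card Finsupp.support_add).trans (Finset.card_union_le _ _)

lemma wt_neg (f : Lam) : wt (-f) = wt f := by
  unfold wt
  rw [AddMonoidAlgebra.coeff_neg, Finsupp.support_neg]

lemma wt_sub (f g : Lam) : wt (f - g) ≤ wt f + wt g := by
  rw [sub_eq_add_neg, ← wt_neg g]; exact wt_add _ _

lemma wt_single (k : V) (a : ℤ) : wt (AddMonoidAlgebra.single k a) ≤ 1 := by
  classical
  unfold wt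
  rw [AddMonoidAlgebra.coeff_single]
  exact (Finset.card_le_card Finsupp.support_single_subset).trans (by simp)

lemma wt_mul (f g : Lam) : wt (f * g) ≤ wt f * wt g := by
  classical
  unfold wt
  refine (Finset.card_le_card (AddMonoidAlgebra.support_coeff_mul_subset f g)).trans ?_
  exact Finset.card_add_le

lemma wt_tau_mul (v : V) (f : Lam) : wt (tau v * f) ≤ wt f := by
  refine (wt_mul _ _).trans ?_
  calc wt (tau v) * wt f ≤ 1 * wt f := Nat.mul_le_mul_right _ (wt_single _ _)
    _ = wt f := one_mul _

lemma wt_one_sub_mul (v : V) (f : Lam) : wt ((1 - tau v) * f) ≤ 2 * wt f := by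
  rw [sub_mul, one_mul]
  have := wt_sub f (tau v * f)
  have := wt_tau_mul v f
  omega

instance : NoZeroDivisors Lam := inferInstance

end LawOsc
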