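import Pool.Agent.LawOsc.Poly
import Pool.Agent.LawOsc.Bound

/-! The lazy walk on `BG` and its anti-concentration. -/

namespace LawOsc

open Finset

/-- Labels of the generators. -/
abbrev I0 := (Fin 6 → Bool) ⊕ (Bool ⊕ Bool)

/-- Labels of the lazy steps. -/
abbrev J := Bool × I0

lemma card_J : Fintype.card J = 136 := by
  simp [J, I0, Fintype.card_prod, Fintype.card_sum]

/-- The generators of `BG`. -/
noncomputable def gen0 : I0 → BG
  | Sum.inl σ => ⟨fun i => sg (σ i), 0, 0⟩
  | Sum.inr (Sum.inl s) => ⟨0, AddMonoidAlgebra.single 0 (sg s), 0⟩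
  | Sum.inr (Sum.inr s) => ⟨0, 0, AddMonoidAlgebra.single 0 (sg s)⟩

/-- A lazy step. -/
noncomputable def stepB (s : J) : BG := if s.1 then 1 else gen0 s.2

/-- The position after `n` steps. -/
noncomputable def walkB {n : ℕ} (ω : Fin n → J) : BG := (List.ofFn fun j => stepB (ω j)).prod

lemma walkB_succ {n : ℕ} (ω : Fin (n + 1) → J) :
    walkB ω = stepB (ω 0) * walkB (fun j => ω j.succ) := by
  simp [walkB, List.ofFn_succ]

lemma walkB_zero (ω : Fin 0 → J) : walkB ω = 1 := by
  simp [walkB]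

lemma walk_v : ∀ {n : ℕ} (ω : Fin n → J), (walkB ω).v = ∑ j, (stepB (ω j)).v
  | 0, ω => by simp [walkB_zero]
  | n + 1, ω => by
    rw [walkB_succ, BG.mul_v, walk_v, Fin.sum_univ_succ]

lemma walk_p : ∀ {n : ℕ} (ω : Fin n → J), aug (walkB ω).p = ∑ j, aug (stepB (ω j)).p
  | 0, ω => by simp [walkB_zero]
  | n + 1, ω => by
    rw [walkB_succ, BG.mul_p, map_add, aug_tau_mul, walk_p, Fin.sum_univ_succ]

lemma walk_q : ∀ {n : ℕ} (ω : Fin n → J), aug (walkB ω).q = ∑ j, aug (stepB (ω j)).q
  | 0, ω => by simp [walkB_zero]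
  | n + 1, ω => by
    rw [walkB_succ, BG.mul_q, map_add, aug_tau_mul, walk_q, Fin.sum_univ_succ]

lemma step_wt (s : J) : wt (stepB s).p ≤ 1 ∧ wt (stepB s).q ≤ 1 := by
  rcases s with ⟨b, σ | s | s⟩ <;> cases b <;>
    simp [stepB, gen0, wt_zero, wt_single]

lemma walk_wt : ∀ {n : ℕ} (ω : Fin n → J), wt (walkB ω).p ≤ n ∧ wt (walkB ω).q ≤ n
  | 0, ω => by simp [walkB_zero, wt_zero]
  | n + 1, ω => by
    rw [walkB_succ, BG.mul_p, BG.mul_q]
    have h := walk_wt (fun j => ω j.succ)
    have h1 := step_wt (ω 0)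
    have h2 := wt_add (stepB (ω 0)).p (tau (stepB (ω 0)).v * (walkB fun j => ω j.succ).p)
    have h3 := wt_add (stepB (ω 0)).q (tau (-(stepB (ω 0)).v) * (walkB fun j => ω j.succ).q)
    have h4 := wt_tau_mul (stepB (ω 0)).v (walkB fun j => ω j.succ).p
    have h5 := wt_tau_mul (-(stepB (ω 0)).v) (walkB fun j => ω j.succ).q
    omega

/-- Shift steps. -/
def it : (Fin 6 → Bool) ↪ J := ⟨fun σ => (false, Sum.inl σ), fun σ τ h => by simpa using h⟩

/-- First lamp steps. -/
def ia : (Fin 1 → Bool) ↪ J := ⟨fun σ => (false, Sum.inr (Sum.inl (σ 0))), fun σ τ h => by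
  ext i; fin_cases i; simpa using h⟩

/-- Second lamp steps. -/
def ib : (Fin 1 → Bool) ↪ J := ⟨fun σ => (false, Sum.inr (Sum.inr (σ 0))), fun σ τ h => by
  ext i; fin_cases i; simpa using h⟩

lemma conc_v (n : ℕ) (x : V) :
    ((univ.filter fun ω : Fin n → J => (walkB ω).v = x).card : ℝ) ≤ 136 ^ n * k6 n := by
  classical
  have h := conc6 card_J it (fun s => (stepB s).v) ?_ ?_ n (fun _ => x)
  · refine le_trans (le_of_eq ?_) h
    congr 2
    ext ω
    simp only [mem_filter, mem_univ, true_and]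
    rw [walk_v]
  · intro σ i
    simp [it, stepB, gen0]
  · rintro ⟨b, σ | s | s⟩ hs <;> cases b <;> simp [stepB, gen0]
    exact absurd ⟨σ, rfl⟩ hs

lemma conc_p (n : ℕ) (i : Fin 6) (m φ : ℤ) (hm : m ≠ 0) :
    ((univ.filter fun ω : Fin n → J =>
      aug (walkB ω).p * m = (walkB ω).v i * φ).card : ℝ) ≤ 136 ^ n * k1 n := by
  classical
  have h := conc1 card_J ia (fun s _ => aug (stepB s).p) ?_ ?_ n
    (fun η _ => ((∑ j, (match η j with | none => (0 : V) | some t => (stepB t.1).v)) i * φ) / m)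
  · refine le_trans ?_ h
    norm_cast
    apply Finset.card_le_card
    intro ω hω
    simp only [mem_filter, mem_univ, true_and] at hω ⊢
    have e : (∑ j, (match hist ia (ω j) with | none => (0 : V) | some t => (stepB t.1).v)) =
        (walkB ω).v := by
      rw [walk_v]
      apply Finset.sum_congr rfl
      intro j _
      rcases hj : hist ia (ω j) with _ | t
      · obtain ⟨σ, hσ⟩ := hist_eq_none ia hj
        rw [← hσ]
        simp [ia, stepB, gen0]
      · rw [hist_eq_some ia hj]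
    ext u
    rw [Finset.sum_apply, ← walk_p, e]
    exact Int.eq_ediv_of_mul_eq_left hm hω
  · intro σ i
    fin_cases i
    simp [ia, stepB, gen0, aug_single]
  · rintro ⟨b, σ | s | s⟩ hs <;> cases b <;> ext u <;> simp [stepB, gen0]
    exact absurd ⟨fun _ => s, rfl⟩ hs

lemma conc_q (n : ℕ) (i : Fin 6) (m φ : ℤ) (hm : m ≠ 0) :
    ((univ.filter fun ω : Fin n → J =>
      aug (walkB ω).q * m = (walkB ω).v i * φ).card : ℝ) ≤ 136 ^ n * k1 n := by
  classical
  have h := conc1 card_J ib (fun s _ => aug (stepB s).q) ?_ ?_ n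
    (fun η _ => ((∑ j, (match η j with | none => (0 : V) | some t => (stepB t.1).v)) i * φ) / m)
  · refine le_trans ?_ h
    norm_cast
    apply Finset.card_le_card
    intro ω hω
    simp only [mem_filter, mem_univ, true_and] at hω ⊢
    have e : (∑ j, (match hist ib (ω j) with | none => (0 : V) | some t => (stepB t.1).v)) =
        (walkB ω).v := by
      rw [walk_v]
      apply Finset.sum_congr rfl
      intro j _
      rcases hj : hist ib (ω j) with _ | t
      · obtain ⟨σ, hσ⟩ := hist_eq_none ib hj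
        rw [← hσ]
        simp [ib, stepB, gen0]
      · rw [hist_eq_some ib hj]
    ext u
    rw [Finset.sum_apply, ← walk_q, e]
    exact Int.eq_ediv_of_mul_eq_left hm hω
  · intro σ i
    fin_cases i
    simp [ib, stepB, gen0, aug_single]
  · rintro ⟨b, σ | s | s⟩ hs <;> cases b <;> ext u <;> simp [stepB, gen0]
    exact absurd ⟨fun _ => s, rfl⟩ hs

/-- The first coordinate of the commutator. -/
noncomputable def pu (x y : BG) : Lam := (1 - tau y.v) * x.p - (1 - tau x.v) * y.p

/-- The second coordinate of the commutator. -/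
noncomputable def qu (x y : BG) : Lam := (1 - tau (-y.v)) * x.q - (1 - tau (-x.v)) * y.q

/-- The Laurent polynomial deciding the law. -/
noncomputable def cc (x y z : BG) : Lam := pu x y * qu x y * (tau (-z.v) - tau z.v)

lemma pu_zero {x y : BG} (h : pu x y = 0) (i : Fin 6) : aug y.p * x.v i = y.v i * aug x.p := by
  have h1 := congrArg (mom i) h
  rw [pu, map_sub, mom_one_sub, mom_one_sub, map_zero] at h1
  linarith

lemma qu_zero {x y : BG} (h : qu x y = 0) (i : Fin 6) : aug y.q * x.v i = y.v i * aug x.q := by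
  have h1 := congrArg (mom i) h
  rw [qu, map_sub, mom_one_sub, mom_one_sub, map_zero, Pi.neg_apply, Pi.neg_apply] at h1
  linarith

lemma wt_pq (x y : BG) (n : ℕ) (hx : wt x.p ≤ n ∧ wt x.q ≤ n) (hy : wt y.p ≤ n ∧ wt y.q ≤ n) :
    wt (pu x y * qu x y) ≤ 16 * n ^ 2 := by
  have h1 : wt (pu x y) ≤ 4 * n := by
    unfold pu
    have := wt_sub ((1 - tau y.v) * x.p) ((1 - tau x.v) * y.p)
    have := wt_one_sub_mul y.v x.p
    have := wt_one_sub_mul x.v y.p
    omega
  have h2 : wt (qu x y) ≤ 4 * n := by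
    unfold qu
    have := wt_sub ((1 - tau (-y.v)) * x.q) ((1 - tau (-x.v)) * y.q)
    have := wt_one_sub_mul (-y.v) x.q
    have := wt_one_sub_mul (-x.v) y.q
    omega
  calc wt (pu x y * qu x y) ≤ wt (pu x y) * wt (qu x y) := wt_mul _ _
    _ ≤ (4 * n) * (4 * n) := Nat.mul_le_mul h1 h2
    _ = 16 * n ^ 2 := by ring

end LawOsc
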